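import Pool.Agent.W5h40.Fuj.Socle

/-!
# Semi-invariant forms of a given degree and pairs of points in the same torus orbit
-/

set_option autoImplicit false

namespace Pool.Agent.W5h40.Fuj

open MvPolynomial Module Pool.Agent.TH144.MB

section
variable {G : Type} [Group G] {n : ℕ}

theorem act_C (α : Fin n → G →* ℂˣ) (g : G) (c : ℂ) : act α g (C c) = C c := by simp [act]

theorem act_X (α : Fin n → G →* ℂˣ) (g : G) (i : Fin n) :
    act α g (X i) = C (α i g : ℂ) * X i := by simp [act]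

theorem act_monomial (α : Fin n → G →* ℂˣ) (g : G) (m : Fin n →₀ ℕ) (c : ℂ) :
    act α g (monomial m c) = monomial m (c * (chr α m g : ℂ)) := by
  apply MvPolynomial.funext
  intro x
  rw [eval_act, eval_monomial, eval_monomial, Finsupp.prod_fintype _ _ (fun i => pow_zero _),
    Finsupp.prod_fintype _ _ (fun i => pow_zero _)]
  have := mon_mv α m g x
  unfold mon at this
  rw [this]
  ring

theorem coeff_act (α : Fin n → G →* ℂˣ) (g : G) (m : Fin n →₀ ℕ) (p : MvPolynomial (Fin n) ℂ) :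
    coeff m (act α g p) = coeff m p * (chr α m g : ℂ) := by
  classical
  refine MvPolynomial.induction_on' p ?_ ?_
  · intro a b
    rw [act_monomial, coeff_monomial, coeff_monomial]
    split_ifs with h
    · rw [h]
    · rw [zero_mul]
  · intro p q hp hq
    rw [map_add, coeff_add, coeff_add, hp, hq, add_mul]

theorem Typ.act {α : Fin n → G →* ℂˣ} {χ : G →* ℂˣ} {t : ℕ} {F : MvPolynomial (Fin n) ℂ}
    (h : Typ α χ t F) (g : G) : act α g F = C (χ g : ℂ) * F := by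
  apply MvPolynomial.funext
  intro x
  rw [eval_act, h.2, map_mul, eval_C]

theorem Typ.supp {α : Fin n → G →* ℂˣ} {χ : G →* ℂˣ} {t : ℕ} {F : MvPolynomial (Fin n) ℂ}
    (h : Typ α χ t F) {m : Fin n →₀ ℕ} (hm : m ∈ F.support) : m.degree = t ∧ chr α m = χ := by
  have hm' := MvPolynomial.mem_support_iff.1 hm
  constructor
  · by_contra h1
    exact hm' (h.1.coeff_eq_zero h1)
  · ext g
    have h1 := congrArg (coeff m) (Typ.act h g)
    rw [coeff_act, coeff_C_mul, mul_comm] at h1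
    exact mul_right_cancel₀ hm' h1

variable [Fintype G]

/-- `|G|` times the `χ`-component -/
noncomputable def proj (α : Fin n → G →* ℂˣ) (χ : G →* ℂˣ) (p : MvPolynomial (Fin n) ℂ) :
    MvPolynomial (Fin n) ℂ := ∑ g, C (((χ g)⁻¹ : ℂˣ) : ℂ) * act α g p

theorem proj_sub (α : Fin n → G →* ℂˣ) (χ : G →* ℂˣ) (p q : MvPolynomial (Fin n) ℂ) :
    proj α χ (p - q) = proj α χ p - proj α χ q := by
  unfold proj
  rw [← Finset.sum_sub_distrib]
  exact Finset.sum_congr rfl fun g _ => by rw [map_sub, mul_sub]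

theorem proj_add (α : Fin n → G →* ℂˣ) (χ : G →* ℂˣ) (p q : MvPolynomial (Fin n) ℂ) :
    proj α χ (p + q) = proj α χ p + proj α χ q := by
  unfold proj
  rw [← Finset.sum_add_distrib]
  exact Finset.sum_congr rfl fun g _ => by rw [map_add, mul_add]

theorem proj_C_mul (α : Fin n → G →* ℂˣ) (χ : G →* ℂˣ) (c : ℂ) (p : MvPolynomial (Fin n) ℂ) :
    proj α χ (C c * p) = C c * proj α χ p := by
  unfold proj
  rw [Finset.mul_sum]
  exact Finset.sum_congr rfl fun g _ => by rw [map_mul, act_C]; ring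

theorem proj_X_mul (α : Fin n → G →* ℂˣ) (χ : G →* ℂˣ) (i : Fin n)
    (p : MvPolynomial (Fin n) ℂ) : proj α (χ * α i) (X i * p) = X i * proj α χ p := by
  unfold proj
  rw [Finset.mul_sum]
  refine Finset.sum_congr rfl fun g _ => ?_
  rw [map_mul, act_X, MonoidHom.mul_apply, mul_inv, Units.val_mul, C_mul]
  have h6 : (C (((α i g)⁻¹ : ℂˣ) : ℂ) : MvPolynomial (Fin n) ℂ) * C (α i g : ℂ) = 1 := by
    rw [← C_mul, Units.inv_mul, C_1]
  linear_combination (C (((χ g)⁻¹ : ℂˣ) : ℂ) * X i * act α g p) * h6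

theorem proj_of_typ [DecidableEq (G →* ℂˣ)] {α : Fin n → G →* ℂˣ} {ψ : G →* ℂˣ} {t : ℕ}
    {F : MvPolynomial (Fin n) ℂ} (h : Typ α ψ t F) (χ : G →* ℂˣ) :
    proj α χ F = if ψ = χ then C (Fintype.card G : ℂ) * F else 0 := by
  unfold proj
  have h1 : ∀ g, C (((χ g)⁻¹ : ℂˣ) : ℂ) * act α g F
      = C ((((χ g)⁻¹ : ℂˣ) : ℂ) * (ψ g : ℂ)) * F := by
    intro g
    rw [Typ.act h, C_mul, mul_assoc]
  simp only [h1]
  rw [← Finset.sum_mul, ← map_sum, sum_char]
  split_ifs <;> simp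

theorem eval_proj (α : Fin n → G →* ℂˣ) (χ : G →* ℂˣ) (p : MvPolynomial (Fin n) ℂ)
    (x : Fin n → ℂ) : eval x (proj α χ p) = Lam α χ x p := by
  unfold proj Lam
  rw [map_sum]
  exact Finset.sum_congr rfl fun g _ => by rw [map_mul, eval_C, eval_act]

omit [Fintype G] in
theorem act_hom (α : Fin n → G →* ℂˣ) (g : G) {t : ℕ} {p : MvPolynomial (Fin n) ℂ}
    (hp : p.IsHomogeneous t) : (act α g p).IsHomogeneous t := by
  intro m hm
  rw [coeff_act] at hm
  exact hp (left_ne_zero_of_mul hm)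

theorem proj_typ (α : Fin n → G →* ℂˣ) (χ : G →* ℂˣ) {t : ℕ} {p : MvPolynomial (Fin n) ℂ}
    (hp : p.IsHomogeneous t) : Typ α χ t (proj α χ p) := by
  constructor
  · exact IsHomogeneous.sum _ _ _ fun g _ => (act_hom α g hp).C_mul _
  · intro h x
    rw [eval_proj, eval_proj]
    unfold Lam
    rw [Finset.mul_sum]
    refine Fintype.sum_bijective (fun g => g * h) (Group.mulRight_bijective h) _ _ ?_
    intro g
    rw [mv_mv, map_mul, mul_inv, Units.val_mul]
    have h6 : (χ h : ℂ) * (((χ h)⁻¹ : ℂˣ) : ℂ) = 1 := Units.mul_inv _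
    linear_combination (-(((χ g)⁻¹ : ℂˣ) : ℂ) * eval (mv α (g * h) x) p) * h6

end

/-- forms `f j` of degrees `d j ≥ 2` and characters `ψ j`, such that `G` acts freely on the cone of
their common zeros -/
structure Dat (G : Type) [Group G] (n c : ℕ) where
  α : Fin n → G →* ℂˣ
  f : Fin c → MvPolynomial (Fin n) ℂ
  d : Fin c → ℕ
  ψ : Fin c → G →* ℂˣ
  typ : ∀ j, Typ α (ψ j) (d j) (f j)
  two : ∀ j, 2 ≤ d j
  free : ∀ v : Fin n → ℂ, v ≠ 0 → (∀ j, eval v (f j) = 0) → Fr α v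

namespace Dat

variable {G : Type} [Group G] {n c : ℕ} (D : Dat G n c)

def ρ : ℕ := ∑ j, (D.d j - 1)

noncomputable def I : Ideal (MvPolynomial (Fin n) ℂ) := Ideal.span (Set.range D.f)

def Z (v : Fin n → ℂ) : Prop := ∀ j, eval v (D.f j) = 0

theorem zero_iff (v : Fin n → ℂ) : (∀ p ∈ D.I, eval v p = 0) ↔ D.Z v := by
  constructor
  · exact fun h j => h _ (Ideal.subset_span ⟨j, rfl⟩)
  · intro h p hp
    have h2 : D.I ≤ RingHom.ker (eval v) := by
      rw [I, Ideal.span_le]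
      rintro _ ⟨j, rfl⟩
      exact RingHom.mem_ker.2 (h j)
    exact RingHom.mem_ker.1 (h2 hp)

theorem hom : Hom D.I := by
  refine hom_span ?_
  rintro _ ⟨j, rfl⟩
  exact ⟨_, (D.typ j).1⟩

theorem top : TopBound D.I D.ρ :=
  topBound_forms D.f D.d (fun j => (D.typ j).1) fun j => by have := D.two j; omega

noncomputable def sit : Sit ℂ G n where
  I := D.I
  hom := D.hom
  α := D.α
  stable := by
    intro v hv g
    rw [D.zero_iff] at hv ⊢
    intro j
    rw [(D.typ j).2, hv j, mul_zero]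
  free := fun v hv0 hv => D.free v hv0 ((D.zero_iff v).1 hv)

theorem act_mem (g : G) {p : MvPolynomial (Fin n) ℂ} (hp : p ∈ D.I) : act D.α g p ∈ D.I := by
  have h2 : D.I ≤ D.I.comap (act D.α g) := by
    conv_lhs => rw [I]
    rw [Ideal.span_le]
    rintro _ ⟨j, rfl⟩
    show act D.α g (D.f j) ∈ D.I
    rw [Typ.act (D.typ j)]
    exact D.I.mul_mem_left _ (Ideal.subset_span ⟨j, rfl⟩)
  exact h2 hp

/-- the ideal of the `f j` and the variables in `T` -/
noncomputable def J (T : Set (Fin n)) : Ideal (MvPolynomial (Fin n) ℂ) := D.I ⊔ Ideal.span (X '' T)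

theorem act_memJ (T : Set (Fin n)) (g : G) {p : MvPolynomial (Fin n) ℂ} (hp : p ∈ D.J T) :
    act D.α g p ∈ D.J T := by
  have h2 : D.J T ≤ (D.J T).comap (act D.α g) := by
    conv_lhs => rw [J]
    refine sup_le (fun p hp => Ideal.mem_sup_left (D.act_mem g hp)) ?_
    rw [Ideal.span_le]
    rintro _ ⟨k, hk, rfl⟩
    show act D.α g (X k) ∈ D.J T
    rw [act_X]
    exact (D.J T).mul_mem_left _ (Ideal.mem_sup_right (Ideal.subset_span ⟨k, hk, rfl⟩))
  exact h2 hp

theorem homJ (T : Set (Fin n)) : Hom (D.J T) := by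
  rw [J, I, ← Ideal.span_union]
  refine hom_span ?_
  rintro _ (⟨j, rfl⟩ | ⟨k, _, rfl⟩)
  · exact ⟨_, (D.typ j).1⟩
  · exact ⟨1, isHomogeneous_X _ _⟩

theorem J_insert (T : Set (Fin n)) (a : Fin n) :
    D.J (insert a T) = D.J T ⊔ Ideal.span {X a} := by
  rw [J, J, Set.image_insert_eq, Set.insert_eq, Ideal.span_union, sup_assoc,
    sup_comm (Ideal.span {X a})]

theorem aeval_J {A : Type} [CommRing A] [Algebra ℂ A] {z : Fin n → A}
    (hz : ∀ j, aeval z (D.f j) = 0) {T : Set (Fin n)} (hT : ∀ k ∈ T, z k = 0)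
    {p : MvPolynomial (Fin n) ℂ} (hp : p ∈ D.J T) : aeval z p = 0 := by
  have h2 : D.J T ≤ RingHom.ker (aeval z : MvPolynomial (Fin n) ℂ →ₐ[ℂ] A) := by
    rw [J, I]
    refine sup_le ?_ ?_
    · rw [Ideal.span_le]
      rintro _ ⟨j, rfl⟩
      exact RingHom.mem_ker.2 (hz j)
    · rw [Ideal.span_le]
      rintro _ ⟨k, hk, rfl⟩
      refine RingHom.mem_ker.2 ?_
      rw [aeval_X, hT k hk]
  exact RingHom.mem_ker.1 (h2 hp)

/-- a zero of minimal support -/
def Min (w : Fin n → ℂ) : Prop :=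
  w ≠ 0 ∧ D.Z w ∧ ∀ v : Fin n → ℂ, D.Z v → (∀ i, w i = 0 → v i = 0) →
    (∃ i, w i ≠ 0 ∧ v i = 0) → v = 0

theorem exists_min {y : Fin n → ℂ} (hy0 : y ≠ 0) (hy : D.Z y) :
    ∃ w, D.Min w ∧ ∀ i, y i = 0 → w i = 0 := by
  classical
  let P : ℕ → Prop := fun k => ∃ w : Fin n → ℂ, w ≠ 0 ∧ D.Z w ∧
    (∀ i, y i = 0 → w i = 0) ∧ (Finset.univ.filter fun i => w i ≠ 0).card = k
  have hP : ∃ k, P k := ⟨_, y, hy0, hy, fun _ h => h, rfl⟩
  obtain ⟨w, hw0, hw, hwy, hwk⟩ := Nat.find_spec hP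
  refine ⟨w, ⟨hw0, hw, ?_⟩, hwy⟩
  intro v hv hvw ⟨i, hi, hi2⟩
  by_contra hv0
  have h1 : Nat.find hP ≤ (Finset.univ.filter fun i => v i ≠ 0).card :=
    Nat.find_min' hP ⟨v, hv0, hv, fun i hi => hvw i (hwy i hi), rfl⟩
  rw [← hwk] at h1
  have h2 : (Finset.univ.filter fun i => v i ≠ 0).card
      < (Finset.univ.filter fun i => w i ≠ 0).card := by
    apply Finset.card_lt_card
    rw [Finset.ssubset_iff_of_subset]
    · exact ⟨i, by simp [hi], by simp [hi2]⟩
    · intro i hi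
      rw [Finset.mem_filter] at hi ⊢
      exact ⟨hi.1, fun h => hi.2 (hvw i h)⟩
  omega

variable [Fintype G]

theorem exists_mono {y : Fin n → ℂ} (hy0 : y ≠ 0) (hy : D.Z y) (χ : G →* ℂˣ) {t : ℕ}
    (ht : D.ρ ≤ t) : ∃ m : Fin n →₀ ℕ, m.degree = t ∧ chr D.α m = χ ∧ mon m y ≠ 0 :=
  D.sit.exists_mono D.top hy0 ((D.zero_iff y).2 hy) χ ht

theorem proj_memJ (T : Set (Fin n)) (χ : G →* ℂˣ) {p : MvPolynomial (Fin n) ℂ}
    (hp : p ∈ D.J T) : proj D.α χ p ∈ D.J T :=
  Ideal.sum_mem _ fun g _ => (D.J T).mul_mem_left _ (D.act_memJ T g hp)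

/-- division by a variable modulo `J T` -/
theorem split (T : Set (Fin n)) {χ : G →* ℂˣ} {a : Fin n} {t : ℕ} {F : MvPolynomial (Fin n) ℂ}
    (hF : Typ D.α (χ * D.α a) (1 + t) F) (h : F ∈ D.J (insert a T)) :
    ∃ Q, Typ D.α χ t Q ∧ F - X a * Q ∈ D.J T := by
  classical
  rw [J_insert] at h
  obtain ⟨q, hq, hFq⟩ := mem_sup_hom (D.homJ T) (isHomogeneous_X ℂ a) hF.1 h
  have hG : (Fintype.card G : ℂ) ≠ 0 := Nat.cast_ne_zero.2 Fintype.card_ne_zero
  refine ⟨C ((Fintype.card G : ℂ)⁻¹) * proj D.α χ q, (proj_typ D.α χ hq).C_mul _, ?_⟩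
  have h1 := D.proj_memJ T (χ * D.α a) hFq
  rw [proj_sub, proj_X_mul, proj_of_typ hF, if_pos rfl] at h1
  have h2 := (D.J T).mul_mem_left (C ((Fintype.card G : ℂ)⁻¹)) h1
  convert h2 using 1
  have h3 : (C ((Fintype.card G : ℂ)⁻¹) : MvPolynomial (Fin n) ℂ) * C (Fintype.card G : ℂ) = 1 := by
    rw [← C_mul, inv_mul_cancel₀ hG, C_1]
  linear_combination (-F) * h3

omit [Fintype G] in
/-- all forms of degree `> ρ` are divisible by `x_a` modulo `J`, at a point of minimal support -/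
theorem mem_of_min {w : Fin n → ℂ} (hw : D.Min w) {a : Fin n} (ha : w a ≠ 0) {t : ℕ}
    (ht : D.ρ < t) {p : MvPolynomial (Fin n) ℂ} (hp : p.IsHomogeneous t) :
    p ∈ D.J (insert a {k | w k = 0}) := by
  classical
  let L : Fin n → Fin n → ℂ := fun i => if w i = 0 then Pi.single i 1 else Pi.single a 1
  have hlin : ∀ i : Fin n, lin (Pi.single i 1) = (X i : MvPolynomial (Fin n) ℂ) := by
    intro i
    unfold lin
    rw [Finset.sum_eq_single i]
    · simp
    · intro j _ hj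
      rw [Pi.single_eq_of_ne hj, map_zero, zero_mul]
    · intro h; exact absurd (Finset.mem_univ i) h
  have h1 := D.top n L (by
    intro v hv1 hv2
    refine hw.2.2 v ((D.zero_iff v).1 hv1) (fun i hi => ?_) ⟨a, ha, ?_⟩
    · have := hv2 i
      simp only [L, if_pos hi, hlin, eval_X] at this
      exact this
    · have := hv2 a
      simp only [L, if_neg ha, hlin, eval_X] at this
      exact this) t ht p hp
  have h3 : D.I ⊔ Ideal.span (Set.range fun i => lin (L i)) ≤ D.J (insert a {k | w k = 0}) := by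
    rw [J]
    refine sup_le le_sup_left ?_
    rw [Ideal.span_le]
    rintro _ ⟨i, rfl⟩
    by_cases hi : w i = 0
    · simp only [L, if_pos hi, hlin]
      exact Ideal.mem_sup_right (Ideal.subset_span ⟨i, Or.inr hi, rfl⟩)
    · simp only [L, if_neg hi, hlin]
      exact Ideal.mem_sup_right (Ideal.subset_span ⟨a, Or.inl rfl, rfl⟩)
  exact h3 h1

end Dat

end Pool.Agent.W5h40.Fuj
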