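import Pool.Agent.W5h40.Fuj.Reduce

/-!
# Separation of points and tangent vectors
-/

set_option autoImplicit false

namespace Pool.Agent.W5h40.Fuj

open MvPolynomial Module Pool.Agent.TH144.MB

theorem pt_complex {n : ℕ} (x : Fin n → ℂ) (s : Fin n → ℂˣ) (p : MvPolynomial (Fin n) ℂ) :
    aeval (pt x s) p = eval (fun i => x i * (s i : ℂ)) p := by
  rw [aeval_eq_eval]
  rfl

/-- evaluation at a point with values in the dual numbers -/
theorem aeval_dual {n : ℕ} (x u : Fin n → ℂ) (p : MvPolynomial (Fin n) ℂ) :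
    aeval (fun i => (TrivSqZeroExt.inl (x i) + TrivSqZeroExt.inr (u i) : DualNumber ℂ)) p
      = TrivSqZeroExt.inl (eval x p) + TrivSqZeroExt.inr (dv p x u) := by
  induction p using MvPolynomial.induction_on with
  | C c =>
    rw [aeval_C, eval_C]
    have : dv (C c) x u = 0 := by simp [dv]
    rw [this, TrivSqZeroExt.inr_zero, add_zero]
    rfl
  | add p q hp hq =>
    have : dv (p + q) x u = dv p x u + dv q x u := by
      simp only [dv, map_add, add_mul, Finset.sum_add_distrib]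
    rw [map_add, map_add, hp, hq, this, TrivSqZeroExt.inl_add, TrivSqZeroExt.inr_add]
    abel
  | mul_X p j hp =>
    rw [map_mul, hp, aeval_X, mul_comm p, dv_X_mul, map_mul, eval_X]
    ext
    · simp [mul_comm]
    · simp
      ring

namespace Dat

variable {G : Type} [Group G] [Fintype G]

theorem base_complex {n c : ℕ} (D : Dat G n c) (s : Fin n → ℂˣ) (x : Fin n → ℂ) (hx0 : x ≠ 0)
    (hx : D.Z x) (hxs : ∀ j, aeval (pt x s) (D.f j) = 0) :
    (∃ (μ : ℂˣ) (g : G), ∀ i, x i ≠ 0 →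
      s i = μ * Units.map (algebraMap ℂ ℂ).toMonoidHom (D.α i g)) ∨
    ∃ T, ∀ r, T ≤ r → ∀ φ : G →* ℂˣ, ∃ F, Typ D.α φ r F ∧ eval x F = 0 ∧
      aeval (pt x s) F ≠ 0 := by
  classical
  obtain ⟨k, hk⟩ : ∃ k, x k ≠ 0 := by
    by_contra hc
    push Not at hc
    exact hx0 (funext hc)
  set x2 : Fin n → ℂ := fun i => x i * (s i : ℂ) with hx2
  have hx2z : D.Z x2 := by
    intro j
    rw [← pt_complex]
    exact hxs j
  have hx20 : x2 ≠ 0 := by
    intro h
    have h1 := congrFun h k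
    rcases mul_eq_zero.1 h1 with h2 | h2
    · exact hk h2
    · exact (s k).ne_zero h2
  by_cases hg : ∃ g, mv D.α g x ∈ Submodule.span ℂ {x2}
  · left
    obtain ⟨g, hg⟩ := hg
    obtain ⟨l, hl⟩ := Submodule.mem_span_singleton.1 hg
    have hl' : ∀ i, x i ≠ 0 → l * (s i : ℂ) = (D.α i g : ℂ) := by
      intro i hi
      have h1 := congrFun hl i
      simp only [Pi.smul_apply, smul_eq_mul, mv, hx2] at h1
      exact mul_right_cancel₀ hi (by linear_combination h1)
    have hl0 : l ≠ 0 := by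
      rintro rfl
      have := hl' k hk
      rw [zero_mul] at this
      exact (D.α k g).ne_zero this.symm
    refine ⟨(Units.mk0 l hl0)⁻¹, g, fun i hi => ?_⟩
    rw [eq_inv_mul_iff_mul_eq]
    ext
    exact hl' i hi
  · right
    push Not at hg
    refine ⟨max (D.ρ + 1) (Fintype.card G), fun r hr φ => ?_⟩
    obtain ⟨F, hF, h1, h2⟩ := D.sit.points D.top hx20 ((D.zero_iff x2).2 hx2z) hx0
      ((D.zero_iff x).2 hx) hg φ ((le_max_left _ _).trans hr) ((le_max_right _ _).trans hr)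
    exact ⟨F, hF, h2, by rwa [pt_complex]⟩

/-- units of the dual numbers of the form `1 + w ε` -/
def QD (u : (DualNumber ℂ)ˣ) : Prop :=
  ∃ w : ℂ, (u : DualNumber ℂ) = TrivSqZeroExt.inl 1 + TrivSqZeroExt.inr w

theorem pt_dual {n : ℕ} (x w : Fin n → ℂ) (s : Fin n → (DualNumber ℂ)ˣ)
    (hs : ∀ i, (s i : DualNumber ℂ) = TrivSqZeroExt.inl 1 + TrivSqZeroExt.inr (w i)) :
    pt x s = fun i => (TrivSqZeroExt.inl (x i) + TrivSqZeroExt.inr (x i * w i) : DualNumber ℂ) := by
  funext i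
  have h : algebraMap ℂ (DualNumber ℂ) (x i) = TrivSqZeroExt.inl (x i) := rfl
  rw [pt, hs, h]
  ext
  · simp
  · simp

theorem base_dual {n c : ℕ} (D : Dat G n c) (s : Fin n → (DualNumber ℂ)ˣ) (hs : ∀ i, QD (s i))
    (x : Fin n → ℂ) (hx0 : x ≠ 0) (hx : D.Z x) (hxs : ∀ j, aeval (pt x s) (D.f j) = 0) :
    (∃ (μ : (DualNumber ℂ)ˣ) (g : G), ∀ i, x i ≠ 0 →
      s i = μ * Units.map (algebraMap ℂ (DualNumber ℂ)).toMonoidHom (D.α i g)) ∨
    ∃ T, ∀ r, T ≤ r → ∀ φ : G →* ℂˣ, ∃ F, Typ D.α φ r F ∧ eval x F = 0 ∧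
      aeval (pt x s) F ≠ 0 := by
  classical
  choose w hw using hs
  set u : Fin n → ℂ := fun i => x i * w i with hu
  have hpt := pt_dual x w s hw
  have huI : ∀ p ∈ D.I, dv p x u = 0 := by
    intro p hp
    have h1 := aeval_J D (A := DualNumber ℂ) hxs (T := ∅) (by simp)
      (p := p) (Ideal.mem_sup_left hp)
    rw [hpt, aeval_dual] at h1
    have h2 := congrArg TrivSqZeroExt.snd h1
    simpa using h2
  by_cases hc : u ∈ Submodule.span ℂ {x}
  · left
    obtain ⟨l, hl⟩ := Submodule.mem_span_singleton.1 hc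
    obtain ⟨k, hk⟩ : ∃ k, x k ≠ 0 := by
      by_contra hc
      push Not at hc
      exact hx0 (funext hc)
    have hl' : ∀ i, x i ≠ 0 → w i = l := by
      intro i hi
      have h1 := congrFun hl i
      simp only [Pi.smul_apply, smul_eq_mul, hu] at h1
      exact mul_left_cancel₀ hi (by linear_combination -h1)
    refine ⟨s k, 1, fun i hi => ?_⟩
    rw [map_one, map_one, mul_one]
    ext1
    rw [hw, hw, hl' i hi, hl' k hk]
  · right
    refine ⟨max (D.ρ + 1) (Fintype.card G), fun r hr φ => ?_⟩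
    obtain ⟨F, hF, h1, h2⟩ := D.sit.tangents (fun g p hp => D.act_mem g hp) D.top hx0
      ((D.zero_iff x).2 hx) huI hc φ ((le_max_left _ _).trans hr) ((le_max_right _ _).trans hr)
    refine ⟨F, hF, h1, ?_⟩
    rw [hpt, aeval_dual]
    intro h3
    have h4 := congrArg TrivSqZeroExt.snd h3
    apply h2
    simpa using h4

variable {n c : ℕ} (D : Dat G n c) {e : ℕ} (χ : G →* ℂˣ)

theorem X_mono {y : Fin n → ℂ} (hy0 : y ≠ 0) (hy : D.Z y) (he : D.ρ + 1 ≤ e) (i : Fin n) :
    ∃ m : Fin n →₀ ℕ, Typ D.α χ e (X i * monomial m 1) ∧ mon m y ≠ 0 ∧ m.degree + 1 = e ∧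
      chr D.α m = χ * (D.α i)⁻¹ := by
  obtain ⟨m, hm, hmc, hmy⟩ := D.exists_mono hy0 hy (χ * (D.α i)⁻¹) (t := e - 1) (by omega)
  have h2 := (typ_monomial hmc).X_mul
  rw [hm, Nat.sub_add_cancel (by omega)] at h2
  exact ⟨m, h2, hmy, by omega, hmc⟩

/-- a form vanishing at `y` made from two coordinates with the same character -/
theorem two_mono {y z : Fin n → ℂ} (hz0 : z ≠ 0) (hz : D.Z z) (he : D.ρ + 1 ≤ e) {i k : Fin n}
    (hik : D.α i = D.α k) :
    ∃ m : Fin n →₀ ℕ, Typ D.α χ e ((C (y k) * X i - C (y i) * X k) * monomial m 1) ∧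
      mon m z ≠ 0 := by
  obtain ⟨m, h1, h2, h3, h4⟩ := D.X_mono χ hz0 hz he i
  refine ⟨m, ?_, h2⟩
  have h5 : Typ D.α χ e (X k * monomial m 1) := by
    have h6 := (typ_monomial (h4.trans (by rw [hik]) : chr D.α m = χ * (D.α k)⁻¹)).X_mul
    rwa [h3] at h6
  have h6 : (C (y k) * X i - C (y i) * X k) * monomial m (1 : ℂ)
      = C (y k) * (X i * monomial m 1) - C (y i) * (X k * monomial m 1) := by ring
  rw [h6]
  exact (h1.C_mul _).sub (h5.C_mul _)

theorem points (he : D.ρ + 1 ≤ e) (hd : ∀ j, D.ρ + D.d j ≤ e + 1) {y z : Fin n → ℂ}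
    (hy0 : y ≠ 0) (hz0 : z ≠ 0) (hy : D.Z y) (hz : D.Z z)
    (hyz : ¬ ∃ (g : G) (c : ℂ), ∀ i, z i = c * (D.α i g * y i)) :
    ∃ F, Typ D.α χ e F ∧ eval y F = 0 ∧ eval z F ≠ 0 := by
  classical
  by_contra hcon
  push Not at hcon
  have h1 : ∀ i, y i = 0 → z i = 0 := by
    intro i hi
    obtain ⟨m, h1, h2, _⟩ := D.X_mono χ hz0 hz he i
    have h3 := hcon _ h1 (by rw [map_mul, eval_X, hi, zero_mul])
    rw [map_mul, eval_X, eval_mono] at h3
    rcases mul_eq_zero.1 h3 with h | h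
    · exact h
    · exact absurd h h2
  have h2 : ∀ i, z i = 0 → y i = 0 := by
    intro i hi
    by_contra hyi
    obtain ⟨m, h1, h2, _⟩ := D.X_mono χ hy0 hy he i
    obtain ⟨m', hm', hmc', hmz'⟩ := D.exists_mono hz0 hz χ (t := e) (by omega)
    have h3 := typ_monomial hmc'
    rw [hm'] at h3
    have h4 : eval y (X i * monomial m (1 : ℂ)) ≠ 0 := by
      rw [map_mul, eval_X, eval_mono]
      exact mul_ne_zero hyi h2
    have h5 := hcon _ (h3.sub (h1.C_mul (eval y (monomial m' (1 : ℂ))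
      / eval y (X i * monomial m (1 : ℂ))))) (by
        rw [map_sub, map_mul (eval y) (C _), eval_C, div_mul_cancel₀ _ h4, sub_self])
    rw [map_sub, map_mul, map_mul (eval z) (X i), eval_X, hi, zero_mul, mul_zero, sub_zero,
      eval_mono] at h5
    exact hmz' h5
  have h3 : ∀ i k, y i ≠ 0 → y k ≠ 0 → D.α i = D.α k → y k * z i = y i * z k := by
    intro i k hi hk hik
    obtain ⟨m, h3, h4⟩ := D.two_mono χ (y := y) hz0 hz he hik
    have h5 := hcon _ h3 (by
      rw [map_mul, map_sub, map_mul, map_mul, eval_C, eval_C, eval_X, eval_X]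
      ring)
    rw [map_mul, map_sub, map_mul, map_mul, eval_C, eval_C, eval_X, eval_X, eval_mono] at h5
    rcases mul_eq_zero.1 h5 with h | h
    · exact sub_eq_zero.1 h
    · exact absurd h h4
  let s : Fin n → ℂˣ := fun i => if h : y i ≠ 0 then
    Units.mk0 (z i / y i) (div_ne_zero (fun h' => h (h2 i h')) h) else 1
  have hs : ∀ i, y i ≠ 0 → (s i : ℂ) = z i / y i := by
    intro i hi
    simp only [s, dif_pos hi, Units.val_mk0]
  have hys : (fun i => y i * (s i : ℂ)) = z := by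
    funext i
    by_cases hi : y i = 0
    · rw [hi, zero_mul, h1 i hi]
    · rw [hs i hi, mul_div_cancel₀ _ hi]
  obtain ⟨μ, g, hμ⟩ := D.reduce (A := ℂ) (χ := χ) he hd hy0 hy (s := s) (by
      intro i k hi hk hik
      ext
      rw [hs i hi, hs k hk, div_eq_div_iff hi hk]
      linear_combination h3 i k hi hk hik) (by
      intro j
      rw [pt_complex, hys]
      exact hz j) (by
      intro F hF hFy
      rw [pt_complex, hys]
      exact hcon F hF hFy) (fun _ => True) (fun _ => trivial)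
    (fun D' s' _ x hx0 hx hxs => D'.base_complex s' x hx0 hx hxs)
  refine hyz ⟨g, (μ : ℂ), fun i => ?_⟩
  by_cases hi : y i = 0
  · rw [h1 i hi, hi, mul_zero, mul_zero]
  · have h4 := congrArg (fun u : ℂˣ => (u : ℂ)) (hμ i hi)
    simp only [hs i hi, Units.val_mul] at h4
    rw [div_eq_iff hi] at h4
    rw [h4]
    show (μ : ℂ) * (D.α i g : ℂ) * y i = _
    ring

theorem tangents (he : D.ρ + 1 ≤ e) (hd : ∀ j, D.ρ + D.d j ≤ e + 1) {y u : Fin n → ℂ}
    (hy0 : y ≠ 0) (hy : D.Z y) (hu : ∀ j, dv (D.f j) y u = 0)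
    (hne : ¬ ∃ c : ℂ, ∀ i, u i = c * y i) :
    ∃ F, Typ D.α χ e F ∧ eval y F = 0 ∧ dv F y u ≠ 0 := by
  classical
  by_contra hcon
  push Not at hcon
  have h1 : ∀ i, y i = 0 → u i = 0 := by
    intro i hi
    obtain ⟨m, h1, h2, _⟩ := D.X_mono χ hy0 hy he i
    have h3 := hcon _ h1 (by rw [map_mul, eval_X, hi, zero_mul])
    rw [dv_X_mul, hi, zero_mul, add_zero, eval_mono] at h3
    rcases mul_eq_zero.1 h3 with h | h
    · exact absurd h h2
    · exact h
  have h3 : ∀ i k, y i ≠ 0 → y k ≠ 0 → D.α i = D.α k → y k * u i = y i * u k := by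
    intro i k hi hk hik
    obtain ⟨m, h3, h4⟩ := D.two_mono χ (y := y) hy0 hy he hik
    have h5 := hcon _ h3 (by
      rw [map_mul, map_sub, map_mul, map_mul, eval_C, eval_C, eval_X, eval_X]
      ring)
    have h6 : (C (y k) * X i - C (y i) * X k) * monomial m (1 : ℂ)
        = C (y k) * (X i * monomial m 1) - C (y i) * (X k * monomial m 1) := by ring
    rw [h6, dv_sub, dv_C_mul, dv_C_mul, dv_X_mul, dv_X_mul, eval_mono] at h5
    have h7 : (y k * u i - y i * u k) * mon m y = 0 := by linear_combination h5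
    rcases mul_eq_zero.1 h7 with h | h
    · exact sub_eq_zero.1 h
    · exact absurd h h4
  let w : Fin n → ℂ := fun i => u i / y i
  have hyw : ∀ i, y i * w i = u i := by
    intro i
    by_cases hi : y i = 0
    · rw [hi, zero_mul, h1 i hi]
    · simp only [w]
      rw [mul_div_cancel₀ _ hi]
  let s : Fin n → (DualNumber ℂ)ˣ := fun i =>
    ⟨TrivSqZeroExt.inl 1 + TrivSqZeroExt.inr (w i), TrivSqZeroExt.inl 1 + TrivSqZeroExt.inr (-w i),
      by ext <;> simp, by ext <;> simp⟩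
  have hs : ∀ i, (s i : DualNumber ℂ) = TrivSqZeroExt.inl 1 + TrivSqZeroExt.inr (w i) :=
    fun i => rfl
  have hpt : pt y s = fun i => (TrivSqZeroExt.inl (y i) + TrivSqZeroExt.inr (u i) : DualNumber ℂ) := by
    rw [pt_dual y w s hs]
    funext i
    rw [hyw]
  obtain ⟨μ, g, hμ⟩ := D.reduce (A := DualNumber ℂ) (χ := χ) he hd hy0 hy (s := s) (by
      intro i k hi hk hik
      ext1
      rw [hs, hs]
      congr 2
      simp only [w]
      rw [div_eq_div_iff hi hk]
      linear_combination h3 i k hi hk hik) (by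
      intro j
      rw [hpt, aeval_dual, hy j, hu j]
      simp) (by
      intro F hF hFy
      rw [hpt, aeval_dual, hFy, hcon F hF hFy]
      simp) QD (fun i => ⟨w i, hs i⟩)
    (fun D' s' hs' x hx0 hx hxs => D'.base_dual s' hs' x hx0 hx hxs)
  obtain ⟨k, hk⟩ : ∃ k, y k ≠ 0 := by
    by_contra hc
    push Not at hc
    exact hy0 (funext hc)
  set a : ℂ := TrivSqZeroExt.fst (μ : DualNumber ℂ) with ha
  set b : ℂ := TrivSqZeroExt.snd (μ : DualNumber ℂ) with hb
  have hab : ∀ i, y i ≠ 0 → 1 = a * (D.α i g : ℂ) ∧ w i = b * (D.α i g : ℂ) := by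
    intro i hi
    have h4 := congrArg (fun u : (DualNumber ℂ)ˣ => (u : DualNumber ℂ)) (hμ i hi)
    simp only [hs i, Units.val_mul] at h4
    have h5 : ((Units.map (algebraMap ℂ (DualNumber ℂ)).toMonoidHom (D.α i g) :
        (DualNumber ℂ)ˣ) : DualNumber ℂ) = TrivSqZeroExt.inl (D.α i g : ℂ) := rfl
    have h4' : TrivSqZeroExt.inl 1 + TrivSqZeroExt.inr (w i)
      = (μ : DualNumber ℂ) * TrivSqZeroExt.inl (D.α i g : ℂ) := h4
    constructor
    · have h6 := congrArg TrivSqZeroExt.fst h4'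
      simpa using h6
    · have h6 := congrArg TrivSqZeroExt.snd h4'
      simp at h6
      rw [h6, hb]
  refine hne ⟨b / a, fun i => ?_⟩
  by_cases hi : y i = 0
  · rw [h1 i hi, hi, mul_zero]
  · obtain ⟨h4, h5⟩ := hab i hi
    have ha0 : a ≠ 0 := by
      intro h
      rw [h, zero_mul] at h4
      exact one_ne_zero h4
    rw [← hyw i, h5]
    have h6 : (D.α i g : ℂ) = a⁻¹ := by
      field_simp
      linear_combination -h4
    rw [h6, div_eq_mul_inv]
    ring

end Dat

end Pool.Agent.W5h40.Fuj
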