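import Pool.Agent.W5h40.Fuj.Core

/-!
# A character missing in degree `ρ - 1`

If the characters `α i` are pairwise different and some character does not occur among the monomials
of degree `ρ - 1`, then all nonzero common zeros of the `f j` have full support.
-/

set_option autoImplicit false

namespace Pool.Agent.W5h40.Fuj

open MvPolynomial Module Pool.Agent.TH144.MB

namespace Dat

variable {G : Type} [Group G] {n c : ℕ} (D : Dat G n c)

theorem zero_of_card (T : Finset (Fin n)) (h : c + T.card < n) :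
    ∃ v : Fin n → ℂ, v ≠ 0 ∧ D.Z v ∧ ∀ k ∈ T, v k = 0 := by
  classical
  obtain ⟨v, hv0, hv⟩ := exists_zero (K := ℂ) (ι := Fin c ⊕ T) (σ := Fin n)
    (Sum.elim D.f fun k => X k.1) (Sum.elim D.d fun _ => 1) (by
      rintro (j | k)
      · exact (D.typ j).1
      · exact isHomogeneous_X _ _) (by
      rintro (j | k)
      · have := D.two j
        simp only [Sum.elim_inl]
        omega
      · exact one_pos) (by
      rw [Fintype.card_sum, Fintype.card_fin, Fintype.card_fin, Fintype.card_coe]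
      exact h)
  refine ⟨v, hv0, fun j => hv (Sum.inl j), fun k hk => ?_⟩
  have := hv (Sum.inr ⟨k, hk⟩)
  simpa using this

theorem dep (T : Finset (Fin n)) (h : c + T.card = n)
    (hv : ∀ v : Fin n → ℂ, D.Z v → (∀ k ∈ T, v k = 0) → v = 0) : Dep (D.J T) D.ρ := by
  classical
  have h1 := socle (K := ℂ) (ι := Fin c ⊕ T) (σ := Fin n)
    (Sum.elim D.f fun k => X k.1) (Sum.elim D.d fun _ => 1) (by
      rintro (j | k)
      · exact (D.typ j).1
      · exact isHomogeneous_X _ _) (by
      rintro (j | k)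
      · have := D.two j
        simp only [Sum.elim_inl]
        omega
      · exact one_pos) (by
      rw [Fintype.card_sum, Fintype.card_fin, Fintype.card_fin, Fintype.card_coe]
      exact h) (by
      intro v h
      refine hv v (fun j => h (Sum.inl j)) fun k hk => ?_
      have := h (Sum.inr ⟨k, hk⟩)
      simpa using this)
  have h2 : ∑ i : Fin c ⊕ T, ((Sum.elim D.d fun _ => 1) i - 1) = D.ρ := by
    rw [Fintype.sum_sum_type]
    simp [ρ]
  rw [h2] at h1
  intro p q hp hq
  obtain ⟨a, b, hab, h⟩ := h1 p q hp hq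
  refine ⟨a, b, hab, ?_⟩
  have h3 : Ideal.span (Set.range (Sum.elim D.f fun k : T => (X k.1 : MvPolynomial (Fin n) ℂ)))
      ≤ D.J T := by
    rw [Ideal.span_le]
    rintro _ ⟨j | k, rfl⟩
    · exact Ideal.mem_sup_left (Ideal.subset_span ⟨j, rfl⟩)
    · exact Ideal.mem_sup_right (Ideal.subset_span ⟨k.1, k.2, rfl⟩)
  exact h3 h

variable [Fintype G]

theorem missing {w : Fin n → ℂ} (hw : D.Min w) {φ : G →* ℂˣ} {t : ℕ} (ht : D.ρ = t + 1)
    (hφ : ∀ m : Fin n →₀ ℕ, m.degree = t → chr D.α m ≠ φ) (a : Fin n) :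
    ∃ m : Fin n →₀ ℕ, m.degree = t + 1 ∧ chr D.α m = φ * D.α a ∧
      monomial m 1 ∉ D.J (insert a {k | w k = 0}) := by
  classical
  obtain ⟨m, hm, hmc, hmw⟩ := D.exists_mono hw.1 hw.2.1 (φ * D.α a) (t := t + 1) (by omega)
  refine ⟨m, hm, hmc, fun h => ?_⟩
  have hT := typ_monomial hmc
  rw [hm, add_comm t 1] at hT
  obtain ⟨Q, hQ, hQJ⟩ := D.split _ hT h
  have h1 := aeval_J D (A := ℂ) (z := w) (fun j => by rw [aeval_eq_eval]; exact hw.2.1 j)
    (fun k hk => hk) hQJ
  rw [aeval_eq_eval] at h1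
  simp only [map_sub, map_mul, eval_X, eval_mono] at h1
  have h2 : eval w Q ≠ 0 := by
    intro h2
    rw [h2, mul_zero, sub_zero] at h1
    exact hmw h1
  have h3 : Lam D.α φ w Q ≠ 0 := by
    rw [← eval_proj, proj_of_typ hQ, if_pos rfl, map_mul, eval_C]
    exact mul_ne_zero (Nat.cast_ne_zero.2 Fintype.card_ne_zero) h2
  obtain ⟨m', hm', hm1, _⟩ := exists_mon D.α φ w Q h3
  exact hφ m' (Typ.supp hQ hm').1 hm1

theorem card_supp {w : Fin n → ℂ} (hw : D.Min w) {φ : G →* ℂˣ} {t : ℕ} (ht : D.ρ = t + 1)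
    (hφ : ∀ m : Fin n →₀ ℕ, m.degree = t → chr D.α m ≠ φ) :
    (Finset.univ.filter fun k => w k = 0).card + c + 1 = n := by
  classical
  obtain ⟨a, ha⟩ : ∃ a, w a ≠ 0 := by
    by_contra hc
    push Not at hc
    exact hw.1 (funext hc)
  obtain ⟨m, hm, hmc, hmJ⟩ := D.missing hw ht hφ a
  set T : Finset (Fin n) := insert a (Finset.univ.filter fun k => w k = 0) with hT
  have hTc : T.card = (Finset.univ.filter fun k => w k = 0).card + 1 := by
    rw [hT, Finset.card_insert_of_notMem (by simp [ha])]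
  have hTv : ∀ v : Fin n → ℂ, D.Z v → (∀ k ∈ T, v k = 0) → v = 0 := by
    intro v hv hvT
    exact hw.2.2 v hv (fun i hi => hvT i (by simp [hT, hi])) ⟨a, ha, hvT a (by simp [hT])⟩
  rcases lt_trichotomy (c + T.card) n with h | h | h
  · exfalso
    obtain ⟨v, hv0, hv, hvT⟩ := D.zero_of_card T h
    exact hv0 (hTv v hv hvT)
  · omega
  · exfalso
    apply hmJ
    have h1 := overdet (K := ℂ) D.f D.d (fun j => (D.typ j).1) D.two T h hTv
      (p := monomial m 1) (isHomogeneous_monomial _ (by rw [hm, ← ht]; rfl))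
    rw [J, I]
    convert h1 using 4
    ext k
    simp [hT]

/-- if a character is missing in degree `ρ - 1` and the `α i` are different, then
all nonzero zeros have full support -/
theorem full (hα : Function.Injective D.α) {φ : G →* ℂˣ} {t : ℕ} (ht : D.ρ = t + 1)
    (hφ : ∀ m : Fin n →₀ ℕ, m.degree = t → chr D.α m ≠ φ) {v : Fin n → ℂ} (hv0 : v ≠ 0)
    (hv : D.Z v) : ∀ i, v i ≠ 0 := by
  classical
  intro b hb
  obtain ⟨w, hw, hwv⟩ := D.exists_min hv0 hv
  have hwb : w b = 0 := hwv b hb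
  obtain ⟨a, ha⟩ : ∃ a, w a ≠ 0 := by
    by_contra hc
    push Not at hc
    exact hw.1 (funext hc)
  have hab : a ≠ b := fun h => ha (h ▸ hwb)
  have hc := D.card_supp hw ht hφ
  set N : Finset (Fin n) := Finset.univ.filter fun k => w k = 0 with hN
  have hbN : b ∈ N := by simp [hN, hwb]
  have haN : a ∉ N := by simp [hN, ha]
  have hNpos : 0 < N.card := Finset.card_pos.2 ⟨b, hbN⟩
  set T1 : Finset (Fin n) := insert a (N.erase b) with hT1
  have hT1c : T1.card = N.card := by
    rw [hT1, Finset.card_insert_of_notMem (fun h => haN (Finset.mem_of_mem_erase h)),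
      Finset.card_erase_of_mem hbN]
    omega
  obtain ⟨v', hv'0, hv', hv'T⟩ := D.zero_of_card T1 (by omega)
  obtain ⟨w', hw', hw'v⟩ := D.exists_min hv'0 hv'
  have hc' := D.card_supp hw' ht hφ
  have hw'T : T1 = Finset.univ.filter fun k => w' k = 0 := by
    apply Finset.eq_of_subset_of_card_le
    · intro k hk
      simp only [Finset.mem_filter, Finset.mem_univ, true_and]
      exact hw'v k (hv'T k hk)
    · omega
  have hmem : ∀ k, w' k = 0 ↔ k = a ∨ (k ≠ b ∧ w k = 0) := by
    intro k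
    have h1 : k ∈ T1 ↔ w' k = 0 := by rw [hw'T]; simp
    rw [← h1, hT1, Finset.mem_insert, Finset.mem_erase, hN]
    simp
  have hw'b : w' b ≠ 0 := by
    rw [Ne, hmem]
    push Not
    exact ⟨hab.symm, fun h => absurd rfl h⟩
  have hset : (insert b {k | w' k = 0} : Set (Fin n)) = insert a {k | w k = 0} := by
    ext k
    simp only [Set.mem_insert_iff, Set.mem_ofPred_eq, hmem]
    by_cases hkb : k = b
    · subst hkb
      simp [hwb]
    · simp [hkb]
  obtain ⟨m1, hm1, hm1c, hm1J⟩ := D.missing hw ht hφ a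
  obtain ⟨m2, hm2, hm2c, hm2J⟩ := D.missing hw' ht hφ b
  rw [hset] at hm2J
  set T : Finset (Fin n) := insert a N with hT
  have hTset : (T : Set (Fin n)) = insert a {k | w k = 0} := by
    ext k
    simp [hT, hN]
  have hTc : T.card = N.card + 1 := by
    rw [hT, Finset.card_insert_of_notMem haN]
  have hdep := D.dep T (by omega) (by
    intro v hv hvT
    exact hw.2.2 v hv (fun i hi => hvT i (by simp [hT, hN, hi])) ⟨a, ha, hvT a (by simp [hT])⟩)
  rw [hTset] at hdep
  obtain ⟨x, y, hxy, h⟩ := hdep (monomial m1 1) (monomial m2 1)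
    (isHomogeneous_monomial _ (by rw [hm1, ht])) (isHomogeneous_monomial _ (by rw [hm2, ht]))
  have hne : φ * D.α a ≠ φ * D.α b := fun h => hab (hα (mul_left_cancel h))
  have hG : (Fintype.card G : ℂ) ≠ 0 := Nat.cast_ne_zero.2 Fintype.card_ne_zero
  have h1 := D.proj_memJ _ (φ * D.α a) h
  have h2 := D.proj_memJ _ (φ * D.α b) h
  rw [proj_add, proj_C_mul, proj_C_mul, proj_of_typ (typ_monomial hm1c),
    proj_of_typ (typ_monomial hm2c)] at h1 h2
  rw [if_pos rfl, if_neg hne.symm, mul_zero, add_zero] at h1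
  rw [if_pos rfl, if_neg hne, mul_zero, zero_add] at h2
  have key : ∀ (x : ℂ) (m : Fin n →₀ ℕ), x ≠ 0 →
      C x * (C (Fintype.card G : ℂ) * monomial m 1) ∈ D.J (insert a {k | w k = 0}) →
      monomial m 1 ∈ D.J (insert a {k | w k = 0}) := by
    intro x m hx h
    have h3 := (D.J (insert a {k | w k = 0})).mul_mem_left
      (C ((Fintype.card G : ℂ)⁻¹) * C x⁻¹) h
    convert h3 using 1
    have h4 : (C ((Fintype.card G : ℂ)⁻¹) : MvPolynomial (Fin n) ℂ) * C (Fintype.card G : ℂ) = 1 := by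
      rw [← C_mul, inv_mul_cancel₀ hG, C_1]
    have h5 : (C x⁻¹ : MvPolynomial (Fin n) ℂ) * C x = 1 := by
      rw [← C_mul, inv_mul_cancel₀ hx, C_1]
    calc (monomial m 1 : MvPolynomial (Fin n) ℂ) = 1 * 1 * monomial m 1 := by ring
      _ = (C ((Fintype.card G : ℂ)⁻¹) * C (Fintype.card G : ℂ)) * (C x⁻¹ * C x) * monomial m 1 := by
        rw [h4, h5]
      _ = _ := by ring
  rcases hxy with hx | hy
  · exact hm1J (key x m1 hx h1)
  · exact hm2J (key y m2 hy h2)

end Dat

end Pool.Agent.W5h40.Fuj
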