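import Pool.Agent.W5h40.Fuj.Full

/-!
# Separation of a point `y` and of its translate `y · t`, with values in a `ℂ`-algebra `A`

`core`: if all monomials of degree `e` and character `χ` take the same value at `t`, then `t` is a
scalar times an element of `G`, provided that `e ≥ ρ + 1` and `e + 1 ≥ ρ + d j` for all `j`.
-/

set_option autoImplicit false

namespace Pool.Agent.W5h40.Fuj

open MvPolynomial Module Pool.Agent.TH144.MB

section
variable {G : Type} [Group G] {n : ℕ}

theorem hassoc (a b c : G →* ℂˣ) : a * b * c = a * (b * c) := MonoidHom.ext fun _ => mul_assoc _ _ _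

theorem hpow (a : G →* ℂˣ) (k : ℕ) : a ^ (k + 1) = a ^ k * a := MonoidHom.ext fun _ => pow_succ _ _

theorem hpow0 (a b : G →* ℂˣ) : b * a ^ 0 = b :=
  MonoidHom.ext fun g => by rw [MonoidHom.mul_apply, MonoidHom.pow_apply, pow_zero, mul_one]

theorem hinv (a b : G →* ℂˣ) : a * b⁻¹ * b = a := MonoidHom.ext fun _ => inv_mul_cancel_right _ _

theorem chr_add (α : Fin n → G →* ℂˣ) (m m' : Fin n →₀ ℕ) :
    chr α (m + m') = chr α m * chr α m' := by
  ext g
  rw [MonoidHom.mul_apply, chr_apply, chr_apply, chr_apply, ← Finset.prod_mul_distrib]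
  congr 1
  exact Finset.prod_congr rfl fun i _ => by rw [Finsupp.add_apply, pow_add]

theorem chr_single (α : Fin n → G →* ℂˣ) (i : Fin n) : chr α (Finsupp.single i 1) = α i := by
  classical
  ext g
  rw [chr_apply]
  congr 1
  rw [Finset.prod_eq_single i]
  · simp
  · intro j _ hj
    simp [Ne.symm hj]
  · intro h; exact absurd (Finset.mem_univ i) h

end

section
variable {n : ℕ} {A : Type} [CommRing A] [Algebra ℂ A]

/-- the point `x · t` -/
def pt (x : Fin n → ℂ) (t : Fin n → Aˣ) : Fin n → A := fun i => algebraMap ℂ A (x i) * (t i : A)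

/-- the value at `t` of a monomial -/
def val (t : Fin n → Aˣ) (m : Fin n →₀ ℕ) : Aˣ := ∏ i, t i ^ m i

omit [Algebra ℂ A] in
theorem val_add (t : Fin n → Aˣ) (m m' : Fin n →₀ ℕ) : val t (m + m') = val t m * val t m' := by
  unfold val
  rw [← Finset.prod_mul_distrib]
  exact Finset.prod_congr rfl fun i _ => by rw [Finsupp.add_apply, pow_add]

omit [Algebra ℂ A] in
theorem val_single (t : Fin n → Aˣ) (i : Fin n) : val t (Finsupp.single i 1) = t i := by
  classical
  unfold val
  rw [Finset.prod_eq_single i]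
  · simp
  · intro j _ hj
    simp [Ne.symm hj]
  · intro h; exact absurd (Finset.mem_univ i) h

theorem aeval_pt_monomial (x : Fin n → ℂ) (t : Fin n → Aˣ) (m : Fin n →₀ ℕ) (c : ℂ) :
    aeval (pt x t) (monomial m c) = (val t m : A) * algebraMap ℂ A (c * mon m x) := by
  rw [aeval_monomial, Finsupp.prod_fintype _ _ (fun i => pow_zero _)]
  simp only [pt, mul_pow, Finset.prod_mul_distrib, mon, val, Units.coe_prod, Units.val_pow_eq_pow_val,
    map_mul, map_prod, map_pow]
  ring

theorem aeval_pt_const (x : Fin n → ℂ) (t : Fin n → Aˣ) (F : MvPolynomial (Fin n) ℂ) (u : Aˣ)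
    (h : ∀ m ∈ F.support, val t m = u) :
    aeval (pt x t) F = (u : A) * algebraMap ℂ A (eval x F) := by
  conv_lhs => rw [F.as_sum]
  rw [map_sum, eval_eq_mon, map_sum, Finset.mul_sum]
  refine Finset.sum_congr rfl fun m hm => ?_
  rw [aeval_pt_monomial, h m hm]

end

namespace Dat

variable {G : Type} [Group G] {n c : ℕ} (D : Dat G n c) {A : Type} [CommRing A] [Algebra ℂ A]

/-- the values at `pt x t` of the forms of degree `e` and character `χ` are multiples of
their values at `x` -/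
def Prp (x : Fin n → ℂ) (t : Fin n → Aˣ) (χ : G →* ℂˣ) (e : ℕ) : Prop :=
  ∃ u : A, ∀ F, Typ D.α χ e F → aeval (pt x t) F = u * algebraMap ℂ A (eval x F)

variable [Fintype G]

theorem Prp.succ {x : Fin n → ℂ} {t : Fin n → Aˣ} {χ : G →* ℂˣ} {e : ℕ}
    (hx : D.Min x) (ht : ∀ j, aeval (pt x t) (D.f j) = 0) {a : Fin n} (ha : x a ≠ 0)
    (he : D.ρ ≤ e) (h : D.Prp x t χ e) : D.Prp x t (χ * D.α a) (e + 1) := by
  obtain ⟨u, hu⟩ := h
  refine ⟨(t a : A) * u, fun F hF => ?_⟩
  rw [add_comm e 1] at hF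
  obtain ⟨Q, hQ, hQJ⟩ := D.split {k | x k = 0} hF
    (D.mem_of_min hx ha (t := 1 + e) (by omega) hF.1)
  have h1 := aeval_J D (A := ℂ) (z := x) (fun j => by rw [aeval_eq_eval]; exact hx.2.1 j)
    (fun k hk => hk) hQJ
  rw [aeval_eq_eval] at h1
  simp only [map_sub, map_mul, eval_X] at h1
  have h2 := aeval_J D (A := A) (z := pt x t) ht (fun k hk => by
    have hk' : x k = 0 := hk
    rw [pt, hk', map_zero, zero_mul]) hQJ
  rw [map_sub, map_mul, aeval_X, hu Q hQ, sub_eq_zero] at h2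
  rw [h2, sub_eq_zero.1 h1, map_mul, pt]
  ring

theorem Prp.iter {x : Fin n → ℂ} {t : Fin n → Aˣ} {χ : G →* ℂˣ} {e : ℕ}
    (hx : D.Min x) (ht : ∀ j, aeval (pt x t) (D.f j) = 0) {a : Fin n} (ha : x a ≠ 0)
    (he : D.ρ ≤ e) (h : D.Prp x t χ e) (k : ℕ) : D.Prp x t (χ * D.α a ^ k) (e + k) := by
  induction k with
  | zero => rwa [hpow0, add_zero]
  | succ k ih =>
    have := Prp.succ D hx ht ha (by omega) ih
    rwa [hassoc, ← hpow] at this

/-- the main argument -/
theorem core (hα : Function.Injective D.α) {t : Fin n → Aˣ} {e : ℕ} {χ : G →* ℂˣ}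
    (he : D.ρ + 1 ≤ e) (hd : ∀ j, D.ρ + D.d j ≤ e + 1)
    (H : ∀ m m' : Fin n →₀ ℕ, m.degree = e → m'.degree = e → chr D.α m = χ → chr D.α m' = χ →
      val t m = val t m')
    {y : Fin n → ℂ} (hy0 : y ≠ 0) (hy : D.Z y) (hyt : ∀ j, aeval (pt y t) (D.f j) = 0)
    (base : ∀ x : Fin n → ℂ, x ≠ 0 → D.Z x → (∀ j, aeval (pt x t) (D.f j) = 0) →
      (∃ (μ : Aˣ) (g : G), ∀ i, x i ≠ 0 →
        t i = μ * Units.map (algebraMap ℂ A).toMonoidHom (D.α i g)) ∨
      ∃ T, ∀ s, T ≤ s → ∀ φ : G →* ℂˣ, ∃ F, Typ D.α φ s F ∧ eval x F = 0 ∧ aeval (pt x t) F ≠ 0) :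
    ∃ (μ : Aˣ) (g : G), ∀ i, t i = μ * Units.map (algebraMap ℂ A).toMonoidHom (D.α i g) := by
  classical
  -- a zero of minimal support whose translate is a zero
  obtain ⟨x, hx, hxt⟩ : ∃ x, D.Min x ∧ ∀ j, aeval (pt x t) (D.f j) = 0 := by
    by_cases hB : ∀ j, ∃ q : Fin n →₀ ℕ, q.degree + D.d j = e ∧ chr D.α q * D.ψ j = χ
    · obtain ⟨x, hx, _⟩ := D.exists_min hy0 hy
      refine ⟨x, hx, fun j => ?_⟩
      obtain ⟨q, hq, hqc⟩ := hB j
      by_cases hs : (D.f j).support = ∅
      · rw [MvPolynomial.support_eq_empty.1 hs, map_zero]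
      · obtain ⟨m0, hm0⟩ := Finset.nonempty_of_ne_empty hs
        rw [aeval_pt_const x t (D.f j) (val t m0) ?_, hx.2.1 j, map_zero, mul_zero]
        intro m hm
        obtain ⟨h1, h2⟩ := Typ.supp (D.typ j) hm
        obtain ⟨h3, h4⟩ := Typ.supp (D.typ j) hm0
        have h5 := H (q + m) (q + m0) (by rw [map_add, h1, hq]) (by rw [map_add, h3, hq])
          (by rw [chr_add, h2, hqc]) (by rw [chr_add, h4, hqc])
        rw [val_add, val_add] at h5
        exact mul_left_cancel h5
    · push Not at hB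
      obtain ⟨j, hj⟩ := hB
      -- the character is missing in degree `ρ - 1`
      have hρ1 : 1 ≤ D.ρ := by
        have h1 : D.d j - 1 ≤ D.ρ :=
          Finset.single_le_sum (f := fun j => D.d j - 1) (fun _ _ => Nat.zero_le _)
            (Finset.mem_univ j)
        have := D.two j
        omega
      obtain ⟨s, hs⟩ := Nat.exists_eq_add_of_le hρ1
      have hdj := hd j
      have hse : e = s + D.d j := by
        by_contra hne
        obtain ⟨m, hm, hmc, _⟩ := D.exists_mono hy0 hy (χ * (D.ψ j)⁻¹) (t := e - D.d j) (by omega)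
        exact hj m (by omega) (by rw [hmc, hinv])
      have hfull := fun v hv0 hv => D.full hα (φ := χ * (D.ψ j)⁻¹) (t := s) (by omega) (by
        intro m hm hmc
        exact hj m (by omega) (by rw [hmc, hinv])) (v := v) hv0 hv
      refine ⟨y, ⟨hy0, hy, ?_⟩, hyt⟩
      rintro v hv _ ⟨i, _, hi⟩
      by_contra hv0
      exact hfull v hv0 hv i hi
  obtain ⟨a, ha⟩ : ∃ a, x a ≠ 0 := by
    by_contra hc
    push Not at hc
    exact hx.1 (funext hc)
  have hP : D.Prp x t χ e := by
    obtain ⟨m0, hm0, hm0c, _⟩ := D.exists_mono hx.1 hx.2.1 χ (t := e) (by omega)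
    refine ⟨(val t m0 : A), fun F hF => aeval_pt_const x t F _ fun m hm => ?_⟩
    obtain ⟨h1, h2⟩ := Typ.supp hF hm
    exact H m m0 h1 hm0 h2 hm0c
  rcases base x hx.1 hx.2.1 hxt with ⟨μ, g, hμ⟩ | ⟨T, hT⟩
  · -- extension to all coordinates
    refine ⟨μ, g, fun i => ?_⟩
    set U : ℂˣ →* Aˣ := Units.map (algebraMap ℂ A).toMonoidHom with hU
    have hval : ∀ m : Fin n →₀ ℕ, mon m x ≠ 0 → val t m = μ ^ m.degree * U (chr D.α m g) := by
      intro m hm
      unfold val
      rw [chr_apply, map_prod, Finsupp.degree_eq_sum, ← Finset.prod_pow_eq_pow_sum,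
        ← Finset.prod_mul_distrib]
      refine Finset.prod_congr rfl fun k _ => ?_
      by_cases hk : m k = 0
      · rw [hk, pow_zero, pow_zero, pow_zero, map_one, one_mul]
      · have hxk : x k ≠ 0 := by
          intro h
          apply hm
          unfold mon
          exact Finset.prod_eq_zero (Finset.mem_univ k) (by rw [h, zero_pow hk])
        rw [hμ k hxk, mul_pow, map_pow]
    obtain ⟨m0, hm0, hm0c, hm0x⟩ := D.exists_mono hx.1 hx.2.1 χ (t := e) (by omega)
    obtain ⟨m, hm, hmc, hmx⟩ := D.exists_mono hx.1 hx.2.1 (χ * (D.α i)⁻¹) (t := e - 1) (by omega)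
    have hsing : chr D.α (m + Finsupp.single i 1) = χ := by
      rw [chr_add, chr_single, hmc, hinv]
    have h1 := H (m + Finsupp.single i 1) m0 (by
      rw [map_add, hm, Finsupp.degree_single]
      omega) hm0 hsing hm0c
    rw [val_add, val_single, hval m hmx, hval m0 hm0x, hm, hm0, hmc, hm0c, MonoidHom.mul_apply,
      map_mul, MonoidHom.inv_apply, map_inv] at h1
    have h2 : μ ^ e = μ ^ (e - 1) * μ := by
      rw [← pow_succ]
      congr 1
      omega
    rw [h2] at h1
    have h3 : μ ^ (e - 1) * U (χ g) * t i = μ ^ (e - 1) * U (χ g) * (μ * U (D.α i g)) := by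
      calc μ ^ (e - 1) * U (χ g) * t i
          = (μ ^ (e - 1) * (U (χ g) * (U (D.α i g))⁻¹) * t i) * U (D.α i g) := by
            rw [← mul_assoc, mul_right_comm, mul_right_comm (μ ^ (e - 1) * U (χ g)),
              inv_mul_cancel_right, mul_right_comm (μ ^ (e - 1)) (t i)]
        _ = (μ ^ (e - 1) * μ * U (χ g)) * U (D.α i g) := by rw [h1]
        _ = _ := by
            rw [mul_right_comm (μ ^ (e - 1)), mul_assoc]
    exact mul_left_cancel h3
  · exfalso
    obtain ⟨u, hu⟩ := Prp.iter D hx hxt ha (by omega) hP T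
    obtain ⟨F, hF, hF0, hFt⟩ := hT (e + T) (by omega) (χ * D.α a ^ T)
    apply hFt
    rw [hu F hF, hF0, map_zero, mul_zero]

end Dat

end Pool.Agent.W5h40.Fuj
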