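import Pool.Agent.W5h40.Fuj.Pair

/-!
# Separation when all characters occur in half the degree (helper66's key lemma)

`core_half`: if `2 t₀ + 1 ≤ e`, every character occurs among the monomials of every degree `≥ t₀`, and
all monomials of degree `e` and character `χ` take the same value at `t`, then this holds for
all characters and all degrees `≥ t₀`, and `t` is a scalar times an element of `G` on the support of
any point `y` of the cone.
-/

set_option autoImplicit false

namespace Pool.Agent.W5h40.Fuj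

open MvPolynomial Module Pool.Agent.TH144.MB

namespace Dat

variable {G : Type} [Group G] {n c : ℕ} (D : Dat G n c) {A : Type} [CommRing A] [Algebra ℂ A]

/-- all monomials of degree `s` with the same character take the same value at `t` -/
def Cst (t : Fin n → Aˣ) (s : ℕ) : Prop :=
  ∀ m m' : Fin n →₀ ℕ, m.degree = s → m'.degree = s → chr D.α m = chr D.α m' → val t m = val t m'

theorem exists_single {m : Fin n →₀ ℕ} (h : m.degree ≠ 0) :
    ∃ (i : Fin n) (m' : Fin n →₀ ℕ), m = m' + Finsupp.single i 1 := by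
  classical
  have h4 : ∃ i, m i ≠ 0 := by
    by_contra hc
    push Not at hc
    have : m = 0 := Finsupp.ext hc
    rw [this, map_zero] at h
    exact h rfl
  obtain ⟨i, hi⟩ := h4
  refine ⟨i, m - Finsupp.single i 1, ?_⟩
  rw [tsub_add_cancel_of_le]
  rw [Finsupp.single_le_iff]
  omega

omit [Algebra ℂ A] in
theorem cst_all {t : Fin n → Aˣ} {e t0 : ℕ} {χ : G →* ℂˣ} (h0 : 2 * t0 + 1 ≤ e)
    (hocc : ∀ s, t0 ≤ s → ∀ ψ : G →* ℂˣ, ∃ m : Fin n →₀ ℕ, m.degree = s ∧ chr D.α m = ψ)
    (H : ∀ m m' : Fin n →₀ ℕ, m.degree = e → m'.degree = e → chr D.α m = χ → chr D.α m' = χ →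
      val t m = val t m') : ∀ s, t0 ≤ s → D.Cst t s := by
  have hinv' : ∀ a b : G →* ℂˣ, a * b⁻¹ * b = a := hinv
  have hlow : ∀ s, s + t0 ≤ e → D.Cst t s := by
    intro s hs m m' hm hm' hc
    obtain ⟨q, hq, hqc⟩ := hocc (e - s) (by omega) (χ * (chr D.α m)⁻¹)
    have h1 := H (q + m) (q + m') (by rw [map_add, hq, hm]; omega) (by rw [map_add, hq, hm']; omega)
      (by rw [chr_add, hqc, hinv']) (by rw [chr_add, hqc, ← hc, hinv'])
    rw [val_add, val_add] at h1
    exact mul_left_cancel h1
  intro s hs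
  induction s using Nat.strong_induction_on with
  | _ s ih =>
    rcases Nat.lt_or_ge s (t0 + 2) with h | h
    · exact hlow s (by omega)
    · intro m m' hm hm' hc
      obtain ⟨i, m1, rfl⟩ := exists_single (n := n) (m := m) (by omega)
      obtain ⟨k, m2, rfl⟩ := exists_single (n := n) (m := m') (by omega)
      rw [map_add, Finsupp.degree_single] at hm hm'
      obtain ⟨q, hq, hqc⟩ := hocc (s - 2) (by omega) (chr D.α m1 * (D.α k)⁻¹)
      rw [chr_add, chr_add, chr_single, chr_single] at hc
      have h1 : chr D.α m1 = chr D.α (q + Finsupp.single k 1) := by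
        rw [chr_add, chr_single, hqc, hinv']
      have h2 : chr D.α m2 = chr D.α (q + Finsupp.single i 1) := by
        rw [chr_add, chr_single, hqc]
        ext g
        have h3 := congrArg (fun f : G →* ℂˣ => f g) hc
        simp only [MonoidHom.mul_apply, MonoidHom.inv_apply] at h3 ⊢
        rw [mul_right_comm, h3, mul_inv_cancel_right]
      have h3 := ih (s - 1) (by omega) (by omega) m1 (q + Finsupp.single k 1) (by omega)
        (by rw [map_add, Finsupp.degree_single, hq]; omega) h1
      have h4 := ih (s - 1) (by omega) (by omega) m2 (q + Finsupp.single i 1) (by omega)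
        (by rw [map_add, Finsupp.degree_single, hq]; omega) h2
      rw [val_add, val_add, h3, h4, val_add, val_add, val_single, val_single]
      exact mul_right_comm _ _ _

theorem core_half {t : Fin n → Aˣ} {e t0 : ℕ} {χ : G →* ℂˣ} (h0 : 2 * t0 + 1 ≤ e)
    (hocc : ∀ s, t0 ≤ s → ∀ ψ : G →* ℂˣ, ∃ m : Fin n →₀ ℕ, m.degree = s ∧ chr D.α m = ψ)
    (H : ∀ m m' : Fin n →₀ ℕ, m.degree = e → m'.degree = e → chr D.α m = χ → chr D.α m' = χ →
      val t m = val t m')
    {y : Fin n → ℂ}
    (base : (∃ (μ : Aˣ) (g : G), ∀ i, y i ≠ 0 →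
        t i = μ * Units.map (algebraMap ℂ A).toMonoidHom (D.α i g)) ∨
      ∃ T, ∀ s, T ≤ s → ∀ φ : G →* ℂˣ, ∃ F, Typ D.α φ s F ∧ eval y F = 0 ∧ aeval (pt y t) F ≠ 0) :
    ∃ (μ : Aˣ) (g : G), ∀ i, y i ≠ 0 →
      t i = μ * Units.map (algebraMap ℂ A).toMonoidHom (D.α i g) := by
  classical
  rcases base with h | ⟨T, hT⟩
  · exact h
  · exfalso
    obtain ⟨F, hF, hF0, hFt⟩ := hT (max T t0) (le_max_left _ _) χ
    apply hFt
    by_cases hs : F.support = ∅
    · rw [MvPolynomial.support_eq_empty.1 hs, map_zero]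
    · obtain ⟨m0, hm0⟩ := Finset.nonempty_of_ne_empty hs
      rw [aeval_pt_const y t F (val t m0) ?_, hF0, map_zero, mul_zero]
      intro m hm
      obtain ⟨h1, h2⟩ := Typ.supp hF hm
      obtain ⟨h3, h4⟩ := Typ.supp hF hm0
      exact D.cst_all h0 hocc H _ (le_max_right T t0) m m0 h1 h3 (by rw [h2, h4])

end Dat

end Pool.Agent.W5h40.Fuj
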