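import Pool.Agent.W5h40.Fuj.Pair

/-!
# Reduction to pairwise different characters
-/

set_option autoImplicit false

namespace Pool.Agent.W5h40.Fuj

open MvPolynomial Module Pool.Agent.TH144.MB

namespace Dat

variable {G : Type} [Group G]

/-- the linear substitution `x_i = y_i s_{cls i}` -/
noncomputable def sub {n n' : ℕ} (y : Fin n → ℂ) (cls : Fin n → Fin n') :
    MvPolynomial (Fin n) ℂ →ₐ[ℂ] MvPolynomial (Fin n') ℂ :=
  aeval fun i => C (y i) * X (cls i)

theorem aeval_sub {n n' : ℕ} (y : Fin n → ℂ) (cls : Fin n → Fin n') {A : Type} [CommRing A]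
    [Algebra ℂ A] (s : Fin n' → A) (p : MvPolynomial (Fin n) ℂ) :
    aeval s (sub y cls p) = aeval (fun i => algebraMap ℂ A (y i) * s (cls i)) p := by
  unfold sub
  induction p using MvPolynomial.induction_on with
  | C c => simp
  | add p q hp hq => rw [map_add, map_add, map_add, hp, hq]
  | mul_X p j hp => rw [map_mul, map_mul, map_mul, hp, aeval_X, aeval_X, map_mul, aeval_C, aeval_X]

theorem eval_sub {n n' : ℕ} (y : Fin n → ℂ) (cls : Fin n → Fin n')
    (s : Fin n' → ℂ) (p : MvPolynomial (Fin n) ℂ) :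
    eval s (sub y cls p) = eval (fun i => y i * s (cls i)) p := by
  have := aeval_sub y cls s p
  simpa [aeval_eq_eval] using this

/-- the restriction of the data to the subspace of the `x_i = y_i s_{cls i}` -/
noncomputable def restrict {n n' c : ℕ} (D : Dat G n c) (y : Fin n → ℂ) (cls : Fin n → Fin n')
    (α' : Fin n' → G →* ℂˣ) (hcls : ∀ i, y i ≠ 0 → α' (cls i) = D.α i)
    (rep : Fin n' → Fin n) (hrep : ∀ l, y (rep l) ≠ 0 ∧ cls (rep l) = l) : Dat G n' c where
  α := α'
  f := fun j => sub y cls (D.f j)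
  d := D.d
  ψ := D.ψ
  typ := by
    intro j
    constructor
    · have h1 := (D.typ j).1.aeval (fun i => C (y i) * X (cls i) : Fin n → MvPolynomial (Fin n') ℂ)
        (n := 1) (fun i => (isHomogeneous_X ℂ _).C_mul _)
      rw [one_mul] at h1
      exact h1
    · intro g x
      rw [eval_sub, eval_sub, ← (D.typ j).2 g]
      congr 2
      funext i
      simp only [mv]
      by_cases hi : y i = 0
      · rw [hi]; ring
      · rw [hcls i hi]; ring
  two := D.two
  free := by
    intro v hv0 hv g μ hg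
    obtain ⟨l, hl⟩ : ∃ l, v l ≠ 0 := by
      by_contra hc
      push Not at hc
      exact hv0 (funext hc)
    refine D.free (fun i => y i * v (cls i)) ?_ ?_ g μ ?_
    · intro h
      have h1 := congrFun h (rep l)
      simp only [(hrep l).2, Pi.zero_apply] at h1
      rcases mul_eq_zero.1 h1 with h2 | h2
      · exact (hrep l).1 h2
      · exact hl h2
    · intro j
      rw [← eval_sub]
      exact hv j
    · intro i
      dsimp only
      by_cases hi : y i = 0
      · rw [hi]; ring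
      · rw [← hcls i hi]
        linear_combination y i * hg (cls i)

theorem eval_rename' {n n' : ℕ} (rep : Fin n' → Fin n) {A : Type} [CommRing A]
    [Algebra ℂ A] (z : Fin n → A) (p : MvPolynomial (Fin n') ℂ) :
    aeval z (rename rep p) = aeval (fun l => z (rep l)) p := by
  rw [aeval_rename]
  rfl

theorem typ_rename {n n' : ℕ} {α : Fin n → G →* ℂˣ} {α' : Fin n' → G →* ℂˣ}
    {rep : Fin n' → Fin n} (h : ∀ l, α (rep l) = α' l) {χ : G →* ℂˣ} {e : ℕ}
    {p : MvPolynomial (Fin n') ℂ} (hp : Typ α' χ e p) : Typ α χ e (rename rep p) := by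
  refine ⟨hp.1.rename_isHomogeneous, fun g x => ?_⟩
  rw [eval_rename, eval_rename, ← hp.2]
  congr 2
  funext l
  simp only [mv, Function.comp, h]

variable [Fintype G]

theorem reduce {n c : ℕ} (D : Dat G n c) {A : Type} [CommRing A] [Algebra ℂ A] {e : ℕ}
    {χ : G →* ℂˣ} (he : D.ρ + 1 ≤ e) (hd : ∀ j, D.ρ + D.d j ≤ e + 1)
    {y : Fin n → ℂ} (hy0 : y ≠ 0) (hy : D.Z y) {s : Fin n → Aˣ}
    (hs : ∀ i k, y i ≠ 0 → y k ≠ 0 → D.α i = D.α k → s i = s k)
    (hys : ∀ j, aeval (pt y s) (D.f j) = 0)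
    (hsep : ∀ F, Typ D.α χ e F → eval y F = 0 → aeval (pt y s) F = 0)
    (Q : Aˣ → Prop) (hQ : ∀ i, Q (s i))
    (base : ∀ {n' : ℕ} (D' : Dat G n' c) (s' : Fin n' → Aˣ), (∀ l, Q (s' l)) →
      ∀ x : Fin n' → ℂ, x ≠ 0 → D'.Z x → (∀ j, aeval (pt x s') (D'.f j) = 0) →
      (∃ (μ : Aˣ) (g : G), ∀ i, x i ≠ 0 →
        s' i = μ * Units.map (algebraMap ℂ A).toMonoidHom (D'.α i g)) ∨
      ∃ T, ∀ r, T ≤ r → ∀ φ : G →* ℂˣ, ∃ F, Typ D'.α φ r F ∧ eval x F = 0 ∧
        aeval (pt x s') F ≠ 0) :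
    ∃ (μ : Aˣ) (g : G), ∀ i, y i ≠ 0 →
      s i = μ * Units.map (algebraMap ℂ A).toMonoidHom (D.α i g) := by
  classical
  obtain ⟨i0, hi0⟩ : ∃ i, y i ≠ 0 := by
    by_contra hc
    push Not at hc
    exact hy0 (funext hc)
  set Λ : Finset (G →* ℂˣ) := (Finset.univ.filter fun i => y i ≠ 0).image D.α with hΛ
  have hmem : ∀ i, y i ≠ 0 → D.α i ∈ Λ := fun i hi =>
    Finset.mem_image_of_mem _ (by simp [hi])
  let E : Λ ≃ Fin Λ.card := Λ.equivFin
  let α' : Fin Λ.card → G →* ℂˣ := fun l => (E.symm l).1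
  have hα' : Function.Injective α' := fun l l' h => E.symm.injective (Subtype.ext h)
  let cls : Fin n → Fin Λ.card := fun i =>
    if h : y i ≠ 0 then E ⟨D.α i, hmem i h⟩ else E ⟨D.α i0, hmem i0 hi0⟩
  have hcls : ∀ i, y i ≠ 0 → α' (cls i) = D.α i := by
    intro i hi
    simp only [cls, α', dif_pos hi, Equiv.symm_apply_apply]
  have hrep' : ∀ l, ∃ i, y i ≠ 0 ∧ D.α i = α' l := by
    intro l
    obtain ⟨i, hi, hil⟩ := Finset.mem_image.1 (E.symm l).2
    exact ⟨i, by simpa using hi, hil⟩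
  choose rep hrep1 hrep2 using hrep'
  have hrep : ∀ l, y (rep l) ≠ 0 ∧ cls (rep l) = l := by
    intro l
    refine ⟨hrep1 l, hα' ?_⟩
    rw [hcls _ (hrep1 l), hrep2]
  set D' := D.restrict y cls α' hcls rep hrep with hD'
  set s' : Fin Λ.card → Aˣ := fun l => s (rep l) with hs'
  have hscls : ∀ i, y i ≠ 0 → s' (cls i) = s i := by
    intro i hi
    refine hs _ _ (hrep1 _) hi ?_
    rw [hrep2, hcls i hi]
  have hpt : (fun i => algebraMap ℂ A (y i) * pt (fun _ => (1 : ℂ)) s' (cls i)) = pt y s := by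
    funext i
    by_cases hi : y i = 0
    · simp only [pt, hi, map_zero, zero_mul]
    · simp only [pt, map_one, one_mul, hscls i hi]
  have key := D'.core hα' (t := s') (e := e) (χ := χ) he hd ?_ (y := fun _ => 1) ?_ ?_ ?_
    (base D' s' fun l => hQ _)
  · obtain ⟨μ, g, h⟩ := key
    refine ⟨μ, g, fun i hi => ?_⟩
    rw [← hscls i hi, h, ← hcls i hi]
    rfl
  · intro m m' hm hm' hmc hmc'
    set a := mon m (fun l => y (rep l)) with ha
    set b := mon m' (fun l => y (rep l)) with hb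
    have hne : ∀ m : Fin Λ.card →₀ ℕ, mon m (fun l => y (rep l)) ≠ 0 := fun m =>
      Finset.prod_ne_zero_iff.2 fun l _ => pow_ne_zero _ (hrep1 l)
    have hT : ∀ m : Fin Λ.card →₀ ℕ, m.degree = e → chr D'.α m = χ →
        Typ D.α χ e (rename rep (monomial m 1)) := by
      intro m hm hmc
      have h1 := typ_rename (α := D.α) (α' := α') (rep := rep) hrep2 (typ_monomial hmc)
      rwa [hm] at h1
    have h1 := hsep (C b * rename rep (monomial m 1) - C a * rename rep (monomial m' 1))
      (((hT m hm hmc).C_mul _).sub ((hT m' hm' hmc').C_mul _)) (by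
        rw [map_sub, map_mul, map_mul, eval_C, eval_C, eval_rename, eval_rename, eval_mono,
          eval_mono]
        show b * a - a * b = 0
        ring)
    rw [map_sub, map_mul, map_mul, eval_rename', eval_rename', aeval_C, aeval_C] at h1
    have h2 : (fun l => pt y s (rep l)) = pt (fun l => y (rep l)) s' := by
      funext l
      rfl
    rw [h2, aeval_pt_monomial, aeval_pt_monomial, one_mul, one_mul, ← ha, ← hb] at h1
    have h3 : algebraMap ℂ A (a * b) * ((val s' m : A) - (val s' m' : A)) = 0 := by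
      rw [map_mul]
      linear_combination h1
    have h4 : IsUnit (algebraMap ℂ A (a * b)) :=
      (IsUnit.mk0 (a * b) (mul_ne_zero (hne m) (hne m'))).map (algebraMap ℂ A)
    exact Units.ext (sub_eq_zero.1 ((h4.mul_right_eq_zero).1 h3))
  · intro h
    have h1 := congrFun h (cls i0)
    simp at h1
  · intro j
    show eval (fun _ => (1 : ℂ)) (sub y cls (D.f j)) = 0
    rw [eval_sub]
    simpa using hy j
  · intro j
    show aeval (pt (fun _ => (1 : ℂ)) s') (sub y cls (D.f j)) = 0
    rw [aeval_sub, hpt]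
    exact hys j

end Dat

end Pool.Agent.W5h40.Fuj
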