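import Pool.Agent.TH144.MB.Tan

/-!
# The socle of a complete intersection of forms without common zeros

`socle`: let `f i` be as many forms of degrees `d i ≥ 1` as there are variables, without nonzero
common zeros. Then any two forms of degree `∑ (d i - 1)` are linearly dependent modulo `(f i)`.
`exists_zero`: fewer forms than variables have a nonzero common zero.
`overdet`: if the `f j`, of degrees `≥ 2`, and the variables in `T` have no nonzero common zero, and are
more than there are variables, then they generate all forms of degree `∑ (d j - 1)`.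
-/

set_option autoImplicit false

namespace Pool.Agent.W5h40.Fuj

open MvPolynomial Module Pool.Agent.TH144.MB

variable {σ : Type} {K : Type} [Field K]

/-- any two forms of degree `τ` are dependent modulo `J` -/
def Dep (J : Ideal (MvPolynomial σ K)) (τ : ℕ) : Prop :=
  ∀ p q : MvPolynomial σ K, p.IsHomogeneous τ → q.IsHomogeneous τ →
    ∃ a b : K, (a ≠ 0 ∨ b ≠ 0) ∧ C a * p + C b * q ∈ J

theorem dep_step {I : Ideal (MvPolynomial σ K)} (hI : Hom I) {l f : MvPolynomial σ K}
    (hl : l.IsHomogeneous 1) (hnl : NZ l I) {d τ : ℕ} (hf : f.IsHomogeneous d) (hd : 0 < d)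
    (hT : ∀ p : MvPolynomial σ K, p.IsHomogeneous (d + τ) → p ∈ I ⊔ Ideal.span {f})
    (hP : Dep (I ⊔ Ideal.span {l}) τ) : Dep (I ⊔ Ideal.span {f}) (τ + (d - 1)) := by
  intro p q hp hq
  have hlp : (l * p).IsHomogeneous (d + τ) := by
    have := hl.mul hp
    rwa [show 1 + (τ + (d - 1)) = d + τ by omega] at this
  have hlq : (l * q).IsHomogeneous (d + τ) := by
    have := hl.mul hq
    rwa [show 1 + (τ + (d - 1)) = d + τ by omega] at this
  obtain ⟨p', hp', hpp⟩ := mem_sup_hom hI hf hlp (hT _ hlp)
  obtain ⟨q', hq', hqq⟩ := mem_sup_hom hI hf hlq (hT _ hlq)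
  obtain ⟨a, b, hab, h⟩ := hP p' q' hp' hq'
  obtain ⟨r, hr⟩ := mem_sup_iff.1 h
  refine ⟨a, b, hab, mem_sup_iff.2 ⟨r, hnl _ ?_⟩⟩
  have h1 : l * (C a * p + C b * q - f * r)
      = C a * (l * p - f * p') + C b * (l * q - f * q') + f * (C a * p' + C b * q' - l * r) := by
    ring
  rw [h1]
  exact I.add_mem (I.add_mem (I.mul_mem_left _ hpp) (I.mul_mem_left _ hqq)) (I.mul_mem_left _ hr)

theorem dep_zero (J : Ideal (MvPolynomial σ K)) : Dep J 0 := by
  intro p q hp hq
  have hp' := (totalDegree_zero_iff_isHomogeneous _).2 hp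
  have hq' := (totalDegree_zero_iff_isHomogeneous _).2 hq
  rw [totalDegree_eq_zero_iff_eq_C] at hp' hq'
  rw [hp', hq']
  by_cases h : coeff 0 p = 0
  · refine ⟨1, 0, Or.inl one_ne_zero, ?_⟩
    rw [h]
    simp
  · refine ⟨coeff 0 q, - coeff 0 p, Or.inr (neg_ne_zero.2 h), ?_⟩
    rw [← C_mul, ← C_mul, ← C_add]
    have : coeff 0 q * coeff 0 p + -coeff 0 p * coeff 0 q = 0 := by ring
    rw [this, C_0]
    exact J.zero_mem

theorem socle_list [Fintype σ] [IsAlgClosed K] (fs : List (MvPolynomial σ K × ℕ)) :
    ∀ ls : List (σ → K), (∀ x ∈ fs, x.1.IsHomogeneous x.2 ∧ 0 < x.2) →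
    ls.length + fs.length = Fintype.card σ →
    (∀ v : σ → K, (∀ a ∈ ls, eval v (lin a) = 0) → (∀ x ∈ fs, eval v x.1 = 0) → v = 0) →
    Dep (ext ⊥ (ls.map lin ++ fs.map Prod.fst)) (fs.map fun x => x.2 - 1).sum := by
  have := IsAlgClosed.instInfinite (K := K)
  induction fs using List.reverseRecOn with
  | nil =>
    intro ls _ _ _
    exact dep_zero _
  | append_singleton fs x ih =>
    intro ls hfs hlen hv
    obtain ⟨f, d⟩ := x
    have hfd := hfs (f, d) (by simp)
    have hfs' : ∀ x ∈ fs, x.1.IsHomogeneous x.2 ∧ 0 < x.2 := fun x hx => hfs x (by simp [hx])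
    obtain ⟨-, hT0⟩ := square (fs ++ [(f, d)]) ls hfs hlen hv
    set I : Ideal (MvPolynomial σ K) := ext ⊥ (ls.map lin ++ fs.map Prod.fst) with hIdef
    have hhom : ∀ g ∈ ls.map lin ++ fs.map Prod.fst, ∃ d, g.IsHomogeneous d := by
      intro g hg
      rw [List.mem_append, List.mem_map, List.mem_map] at hg
      rcases hg with ⟨a, _, rfl⟩ | ⟨x, hx, rfl⟩
      · exact ⟨1, lin_hom a⟩
      · exact ⟨_, (hfs' x hx).1⟩
    have hI : Hom I := hom_ext _ _ hom_bot hhom
    have hzI : ∀ v : σ → K, (∀ p ∈ I, eval v p = 0) ↔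
        (∀ a ∈ ls, eval v (lin a) = 0) ∧ ∀ x ∈ fs, eval v x.1 = 0 := by
      intro v
      rw [hIdef, zero_ext]
      constructor
      · rintro ⟨_, h2⟩
        exact ⟨fun a ha => h2 _ (by simp only [List.mem_append, List.mem_map]
                                    exact Or.inl ⟨a, ha, rfl⟩),
          fun x hx => h2 _ (by simp only [List.mem_append, List.mem_map]
                               exact Or.inr ⟨x, hx, rfl⟩)⟩
      · rintro ⟨h1, h2⟩
        refine ⟨by simp, ?_⟩
        intro g hg
        rw [List.mem_append, List.mem_map, List.mem_map] at hg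
        rcases hg with ⟨a, ha, rfl⟩ | ⟨x, hx, rfl⟩
        · exact h1 a ha
        · exact h2 x hx
    obtain ⟨T, hT⟩ := exists_top (I := I ⊔ Ideal.span {f}) (by
      intro v h
      have h1 := (hzI v).1 fun p hp => h p (Ideal.mem_sup_left hp)
      refine hv v h1.1 ?_
      intro x hx
      rw [List.mem_append, List.mem_singleton] at hx
      rcases hx with hx | rfl
      · exact h1.2 x hx
      · exact h f (Ideal.mem_sup_right (Ideal.mem_span_singleton_self f)))
    obtain ⟨B, hB⟩ := bounded hI hfd.2 hfd.1 hT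
    obtain ⟨a, ha⟩ := exists_lin hB
    have hlen' : (ls ++ [a]).length + fs.length = Fintype.card σ := by
      simp only [List.length_append, List.length_cons, List.length_nil] at hlen ⊢
      omega
    have hv' : ∀ v : σ → K, (∀ b ∈ ls ++ [a], eval v (lin b) = 0) →
        (∀ x ∈ fs, eval v x.1 = 0) → v = 0 := by
      intro v hv1 hv2
      by_contra hv0
      refine ha v hv0 ((hzI v).2 ⟨fun b hb => hv1 b (by simp [hb]), hv2⟩) (hv1 a (by simp))
    obtain ⟨h1, h2⟩ := square fs (ls ++ [a]) hfs' hlen' hv'
    have h20 := ih (ls ++ [a]) hfs' hlen' hv'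
    have h3 : (ls ++ [a]).map lin ++ fs.map Prod.fst
        = ls.map lin ++ (lin a :: fs.map Prod.fst) := by simp
    rw [h3] at h1 h2 h20
    rw [reg_append] at h1
    have hhom1 : ∀ g ∈ fs.map Prod.fst, ∃ d, g.IsHomogeneous d := fun g hg =>
      hhom g (by simp only [List.mem_append]; exact Or.inr hg)
    have hhom2 : ∀ g ∈ ls.map (lin (K := K)), ∃ d, g.IsHomogeneous d := fun g hg =>
      hhom g (by simp only [List.mem_append]; exact Or.inl hg)
    obtain ⟨h4, h5⟩ := reg_rotate (lin_hom a) _ _ (hom_ext _ _ hom_bot hhom2) hhom1 h1.2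
    rw [← ext_append] at h5
    have h6 : ext ⊥ (ls.map lin ++ (lin a :: fs.map Prod.fst)) = I ⊔ Ideal.span {lin a} := by
      rw [ext_append, ext_cons, ← ext_append]
    rw [h6] at h20
    have h9 : ls.map lin ++ (fs ++ [(f, d)]).map Prod.fst
        = (ls.map lin ++ fs.map Prod.fst) ++ [f] := by simp
    have h10 : ext ⊥ (ls.map lin ++ (fs ++ [(f, d)]).map Prod.fst) = I ⊔ Ideal.span {f} := by
      rw [h9, ext_append, ext_cons]
      rfl
    rw [h10] at hT0 ⊢
    have h11 : (List.map (fun x : MvPolynomial σ K × ℕ => x.2 - 1) (fs ++ [(f, d)])).sum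
        = (List.map (fun x : MvPolynomial σ K × ℕ => x.2 - 1) fs).sum + (d - 1) := by
      rw [List.map_append, List.sum_append]
      simp
    rw [h11] at hT0 ⊢
    refine dep_step hI (lin_hom a) h5 hfd.1 hfd.2 (fun p hp => hT0 _ ?_ p hp) h20
    have := hfd.2
    simp only at this
    omega

/-- As many forms as variables, without nonzero common zeros: the quotient has dimension at
most one in degree `∑ (d i - 1)`. -/
theorem socle {ι σ : Type} [Fintype ι] [Fintype σ] [IsAlgClosed K]
    (f : ι → MvPolynomial σ K) (d : ι → ℕ) (hf : ∀ i, (f i).IsHomogeneous (d i))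
    (hd : ∀ i, 0 < d i) (hc : Fintype.card ι = Fintype.card σ)
    (hv : ∀ v : σ → K, (∀ i, eval v (f i) = 0) → v = 0) :
    Dep (Ideal.span (Set.range f)) (∑ i, (d i - 1)) := by
  classical
  have h2 := socle_list (K := K) ((Finset.univ : Finset ι).toList.map fun i => (f i, d i)) []
    (by
      intro x hx
      obtain ⟨i, _, rfl⟩ := List.mem_map.1 hx
      exact ⟨hf i, hd i⟩)
    (by simp [hc])
    (by
      intro v _ h
      refine hv v fun i => h (f i, d i) ?_
      exact List.mem_map.2 ⟨i, by simp, rfl⟩)
  have h4 : (List.map (fun x : MvPolynomial σ K × ℕ => x.2 - 1)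
      ((Finset.univ : Finset ι).toList.map fun i => (f i, d i))).sum = ∑ i, (d i - 1) := by
    rw [List.map_map]
    exact Finset.sum_map_toList _ _
  rw [h4] at h2
  intro p q hp hq
  obtain ⟨a, b, hab, h⟩ := h2 p q hp hq
  refine ⟨a, b, hab, ext_le _ _ _ bot_le ?_ h⟩
  intro g hg
  simp only [List.map_nil, List.nil_append, List.map_map, List.mem_map] at hg
  obtain ⟨i, _, rfl⟩ := hg
  exact Ideal.subset_span ⟨i, rfl⟩

/-- fewer forms than variables have a nonzero common zero -/
theorem exists_zero {ι σ : Type} [Fintype ι] [Fintype σ] [IsAlgClosed K]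
    (f : ι → MvPolynomial σ K) (d : ι → ℕ) (hf : ∀ i, (f i).IsHomogeneous (d i))
    (hd : ∀ i, 0 < d i) (hc : Fintype.card ι < Fintype.card σ) :
    ∃ v : σ → K, v ≠ 0 ∧ ∀ i, eval v (f i) = 0 := by
  classical
  by_contra hcon
  push Not at hcon
  obtain ⟨k, hk⟩ := Nat.exists_eq_add_of_lt hc
  set L : List (MvPolynomial σ K × ℕ) :=
    (Finset.univ : Finset ι).toList.map (fun i => (f i, d i)) ++ List.replicate k (0, 1) with hL
  have hL1 : ∀ x ∈ L ++ [((0 : MvPolynomial σ K), 1)], x.1.IsHomogeneous x.2 ∧ 0 < x.2 := by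
    intro x hx
    rw [List.mem_append, hL, List.mem_append] at hx
    rcases hx with (hx | hx) | hx
    · obtain ⟨i, _, rfl⟩ := List.mem_map.1 hx
      exact ⟨hf i, hd i⟩
    · rw [List.eq_of_mem_replicate hx]
      exact ⟨isHomogeneous_zero _ _ _, one_pos⟩
    · rw [List.mem_singleton] at hx
      rw [hx]
      exact ⟨isHomogeneous_zero _ _ _, one_pos⟩
  obtain ⟨h1, _⟩ := square (L ++ [((0 : MvPolynomial σ K), 1)]) [] hL1
    (by
      rw [hL]
      simp only [List.length_nil, List.length_append, List.length_map, Finset.length_toList,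
        Finset.card_univ, List.length_replicate, List.length_cons]
      omega)
    (by
      intro v _ h
      by_contra hv0
      obtain ⟨i, hi⟩ := hcon v hv0
      apply hi
      refine h (f i, d i) ?_
      rw [hL]
      simp only [List.mem_append]
      left
      left
      exact List.mem_map.2 ⟨i, by simp, rfl⟩)
  rw [List.map_append, List.map_nil, List.nil_append, reg_append] at h1
  have h2 : (1 : MvPolynomial σ K) ∈ ext ⊥ (L.map Prod.fst) := h1.2.1 1 (by simp)
  have h3 : ext ⊥ (L.map Prod.fst) ≤ RingHom.ker (eval (0 : σ → K)) := by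
    refine ext_le _ _ _ bot_le ?_
    intro g hg
    obtain ⟨x, hx, rfl⟩ := List.mem_map.1 hg
    obtain ⟨h4, h5⟩ := hL1 x (by simp [hx])
    refine RingHom.mem_ker.2 ?_
    have h6 := eval_smul' h4 0 (0 : σ → K)
    rw [zero_pow h5.ne', zero_mul] at h6
    simpa using h6
  have h4 := RingHom.mem_ker.1 (h3 h2)
  rw [map_one] at h4
  exact one_ne_zero h4

/-- the value of a polynomial in more variables at a point supported outside `T` -/
theorem eval_restrict {n : ℕ} (T : Finset (Fin n)) (p : MvPolynomial (Fin n) K)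
    (v : {k // k ∉ T} → K) :
    eval v (aeval (fun k => if h : k ∉ T then (X ⟨k, h⟩ : MvPolynomial {k // k ∉ T} K) else 0) p)
      = eval (fun k => if h : k ∉ T then v ⟨k, h⟩ else 0) p := by
  induction p using MvPolynomial.induction_on with
  | C c => simp
  | add p q hp hq => rw [map_add, map_add, map_add, hp, hq]
  | mul_X p j hp =>
    rw [map_mul, map_mul, map_mul, hp, eval_X, aeval_X]
    congr 1
    split_ifs <;> simp

/-- If the forms `f j` of degrees `≥ 2` and the variables in `T` have no nonzero common zero and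
are more than there are variables, they generate all forms of degree `∑ (d j - 1)`. -/
theorem overdet {n c : ℕ} [IsAlgClosed K] (f : Fin c → MvPolynomial (Fin n) K) (d : Fin c → ℕ)
    (hf : ∀ j, (f j).IsHomogeneous (d j)) (hd : ∀ j, 2 ≤ d j) (T : Finset (Fin n))
    (hc : n < c + T.card)
    (hv : ∀ v : Fin n → K, (∀ j, eval v (f j) = 0) → (∀ k ∈ T, v k = 0) → v = 0)
    {p : MvPolynomial (Fin n) K} (hp : p.IsHomogeneous (∑ j, (d j - 1))) :
    p ∈ Ideal.span (Set.range f) ⊔ Ideal.span (X '' (T : Set (Fin n))) := by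
  classical
  have := IsAlgClosed.instInfinite (K := K)
  set J : Ideal (MvPolynomial (Fin n) K) :=
    Ideal.span (Set.range f) ⊔ Ideal.span (X '' (T : Set (Fin n))) with hJ
  obtain ⟨cc, hcc⟩ := exists_not_mem (K := K) (ι := Fin c) (σ := {k // k ∉ T})
    (fun j => aeval (fun k => if h : k ∉ T then (X ⟨k, h⟩ : MvPolynomial {k // k ∉ T} K) else 0)
      (f j)) (by
      have hTn : T.card ≤ n := by simpa using Finset.card_le_univ T
      rw [Fintype.card_fin, Fintype.card_subtype_compl, Fintype.card_fin, Fintype.card_coe]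
      omega)
  let g : Fin c ⊕ T → MvPolynomial (Option (Fin n)) K :=
    Sum.elim (fun j => rename some (f j) - C (cc j) * X none ^ d j) (fun k => X (some k.1))
  let e : Fin c ⊕ T → ℕ := Sum.elim d fun _ => 1
  have hge : ∀ (v : Option (Fin n) → K) (j : Fin c),
      eval v (g (Sum.inl j)) = eval (fun k => v (some k)) (f j) - cc j * v none ^ d j := by
    intro v j
    simp only [g, Sum.elim_inl, map_sub, map_mul, eval_C, map_pow, eval_X, eval_rename]
    rfl
  have h1 : (X none * rename some p : MvPolynomial (Option (Fin n)) K)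
      ∈ Ideal.span (Set.range g) := by
    refine macaulay g e ?_ ?_ ?_ ?_ (t := 1 + ∑ j, (d j - 1)) ?_
      ((isHomogeneous_X K _).mul hp.rename_isHomogeneous)
    · rintro (j | k)
      · refine (hf j).rename_isHomogeneous.sub ?_
        have h1 := (isHomogeneous_C (Option (Fin n)) (cc j)).mul
          ((isHomogeneous_X K (none : Option (Fin n))).pow (d j))
        simpa using h1
      · exact isHomogeneous_X K _
    · rintro (j | k)
      · have := hd j
        simp only [e, Sum.elim_inl]
        omega
      · exact one_pos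
    · rw [Fintype.card_option, Fintype.card_fin, Fintype.card_sum, Fintype.card_fin,
        Fintype.card_coe]
      omega
    · intro v hv0
      have hT : ∀ k ∈ T, v (some k) = 0 := by
        intro k hk
        have := hv0 (Sum.inr ⟨k, hk⟩)
        simpa [g] using this
      by_cases hy : v none = 0
      · have h2 : (fun k => v (some k)) = 0 := by
          refine hv _ (fun j => ?_) hT
          have h3 := hv0 (Sum.inl j)
          have hdj := hd j
          rw [hge, hy, zero_pow (by omega), mul_zero, sub_zero] at h3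
          exact h3
        funext o
        rcases o with _ | k
        · exact hy
        · exact congrFun h2 k
      · exfalso
        obtain ⟨j, hj⟩ := hcc (fun k => (v none)⁻¹ * v (some k.1))
        apply hj
        rw [eval_restrict]
        have h2 : (fun k => if h : k ∉ T then (v none)⁻¹ * v (some k) else 0)
            = fun k => (v none)⁻¹ * v (some k) := by
          funext k
          by_cases h : k ∈ T
          · rw [dif_neg (not_not.2 h), hT k h, mul_zero]
          · rw [dif_pos h]
        rw [h2, eval_smul' (hf j)]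
        have h3 := hv0 (Sum.inl j)
        rw [hge, sub_eq_zero] at h3
        rw [h3, inv_pow]
        field_simp
    · rw [Fintype.sum_sum_type]
      simp [e]
  -- set the new variable to zero, after taking the derivative with respect to it
  let ψ : MvPolynomial (Option (Fin n)) K →ₐ[K] MvPolynomial (Fin n) K :=
    aeval fun o => o.elim 0 X
  have hψ : ∀ q : MvPolynomial (Fin n) K, ψ (rename some q) = q := by
    intro q
    have h2 : ψ.comp (rename some) = AlgHom.id K (MvPolynomial (Fin n) K) := by
      apply algHom_ext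
      intro i
      simp [ψ]
    exact DFunLike.congr_fun h2 q
  have hψn : ψ (X none) = 0 := by simp [ψ]
  have hpd : ∀ q : MvPolynomial (Fin n) K,
      pderiv none (rename some q : MvPolynomial (Option (Fin n)) K) = 0 := by
    intro q
    induction q using MvPolynomial.induction_on with
    | C c => simp
    | add p q hp hq => rw [map_add, map_add, hp, hq, add_zero]
    | mul_X p j hp =>
      rw [map_mul, rename_X, pderiv_mul, hp, zero_mul, zero_add, pderiv_X_of_ne (by simp), mul_zero]
  have hgJ : ∀ i, ψ (g i) ∈ J ∧ ψ (pderiv none (g i)) = 0 := by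
    rintro (j | k)
    · have hdj := hd j
      constructor
      · simp only [g, Sum.elim_inl, map_sub, map_mul, map_pow, hψ, hψn]
        rw [zero_pow (by omega), mul_zero, sub_zero]
        exact Ideal.mem_sup_left (Ideal.subset_span ⟨j, rfl⟩)
      · simp only [g, Sum.elim_inl, map_sub, hpd, pderiv_C_mul, pderiv_pow, pderiv_X_self, map_mul,
          map_pow, hψn]
        rw [zero_pow (by omega)]
        simp
    · constructor
      · have : ψ (X (some k.1)) = X k.1 := by simp [ψ]
        simp only [g, Sum.elim_inr, this]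
        exact Ideal.mem_sup_right (Ideal.subset_span ⟨k.1, k.2, rfl⟩)
      · simp only [g, Sum.elim_inr]
        rw [pderiv_X_of_ne (by simp), map_zero]
  have hkey : ∀ x ∈ Ideal.span (Set.range g), ψ x ∈ J ∧ ψ (pderiv none x) ∈ J := by
    intro x hx
    refine Submodule.span_induction ?_ ?_ ?_ ?_ hx
    · rintro _ ⟨i, rfl⟩
      refine ⟨(hgJ i).1, ?_⟩
      rw [(hgJ i).2]
      exact J.zero_mem
    · simp only [map_zero]
      exact ⟨J.zero_mem, J.zero_mem⟩
    · intro x y _ _ hx hy
      rw [map_add, map_add, map_add]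
      exact ⟨J.add_mem hx.1 hy.1, J.add_mem hx.2 hy.2⟩
    · intro a x _ hx
      rw [smul_eq_mul, map_mul, pderiv_mul, map_add, map_mul, map_mul]
      exact ⟨J.mul_mem_left _ hx.1, J.add_mem (J.mul_mem_left _ hx.1) (J.mul_mem_left _ hx.2)⟩
  have h2 := (hkey _ h1).2
  rw [pderiv_mul, hpd, mul_zero, add_zero, pderiv_X_self, one_mul, hψ] at h2
  exact h2

end Pool.Agent.W5h40.Fuj
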